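import Pool.Agent.N555.MQ.Fin
import Pool.Agent.W779.Morrey.Iso

/-!
# The Dirichlet energy minus a convex function of the diagonal
-/

set_option autoImplicit false

open MeasureTheory Set Filter Topology Matrix

namespace Pool.Agent.N555.MQ

open Pool.Agent.W779.Morrey

theorem contDiff_WL {h : V → ℝ} (hh : ContDiff ℝ 2 h) (L : E →L[ℝ] V) (B : E →L[ℝ] E →L[ℝ] ℝ) :
    ContDiff ℝ 2 (fun F : E => h (L F) + B F F) := by
  refine (hh.comp L.contDiff).add ?_
  exact (B.contDiff.clm_apply contDiff_id)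

/-- the second derivative of `h (L F) + B (F, F)` -/
theorem second_WL {h : V → ℝ} (hh : ContDiff ℝ 2 h) (L : E →L[ℝ] V) (B : E →L[ℝ] E →L[ℝ] ℝ)
    (F H : E) :
    fderiv ℝ (fderiv ℝ (fun F : E => h (L F) + B F F)) F H H
      = fderiv ℝ (fderiv ℝ h) (L F) (L H) (L H) + 2 * B H H := by
  set W : E → ℝ := fun F : E => h (L F) + B F F with hWdef
  have hW := contDiff_WL hh L B
  have h1 : ∀ t : ℝ, HasDerivAt (fun t : ℝ => W (F + t • H))
      (fderiv ℝ h (L F + t • L H) (L H) + (B F H + B H F + 2 * t * B H H)) t := by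
    intro t
    have e : (fun t : ℝ => W (F + t • H)) = fun t : ℝ => h (L F + t • L H)
        + (B F F + t * (B F H + B H F) + t ^ 2 * B H H) := by
      funext t
      simp only [hWdef, map_add, map_smul, _root_.add_apply, FunLike.coe_smul, Pi.smul_apply,
        smul_eq_mul]
      ring
    rw [e]
    refine (line_deriv' hh (L F) (L H) t).1.add ?_
    have h2 := ((hasDerivAt_const t (B F F)).add ((hasDerivAt_id t).mul_const
      (B F H + B H F))).add ((hasDerivAt_pow 2 t).mul_const (B H H))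
    refine h2.congr_deriv ?_
    simp
  have h3 : (fun t : ℝ => fderiv ℝ W (F + t • H) H)
      = fun t : ℝ => fderiv ℝ h (L F + t • L H) (L H)
        + (B F H + B H F + 2 * t * B H H) :=
    funext fun t => (line_deriv' hW F H t).1.unique (h1 t)
  have h4 := (line_deriv' hW F H 0).2
  rw [h3] at h4
  have h5 : HasDerivAt (fun t : ℝ => fderiv ℝ h (L F + t • L H) (L H)
        + (B F H + B H F + 2 * t * B H H))
      (fderiv ℝ (fderiv ℝ h) (L F + (0 : ℝ) • L H) (L H) (L H)
        + 2 * B H H) 0 := by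
    refine (line_deriv' hh (L F) (L H) 0).2.add ?_
    have h6 := (((hasDerivAt_id (0:ℝ)).const_mul 2).mul_const (B H H)).const_add (B F H + B H F)
    refine h6.congr_deriv ?_
    simp
  have h7 := h4.unique h5
  simpa using h7

theorem second_nonpos {X : Type*} [NormedAddCommGroup X] [NormedSpace ℝ X] {W : X → ℝ}
    (hW : ContDiff ℝ 2 W) (F H : X)
    (hc : ∀ (s u t : ℝ), 0 ≤ t → t ≤ 1 →
      (1 - t) * W (F + s • H) + t * W (F + s • H + u • H) ≤ W (F + s • H + t • (u • H))) :
    fderiv ℝ (fderiv ℝ W) F H H ≤ 0 := by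
  have h := second_nonneg (W := fun x => - W x) hW.neg F H (fun s u t h0 h1 => by
    have := hc s u t h0 h1
    linarith)
  have e1 : fderiv ℝ (fun x => - W x) = fun x => - fderiv ℝ W x := by
    funext x
    exact fderiv_fun_neg
  rw [e1] at h
  have e2 : fderiv ℝ (fun x => - fderiv ℝ W x) F = - fderiv ℝ (fderiv ℝ W) F := fderiv_fun_neg
  rw [e2] at h
  simp only [_root_.neg_apply] at h
  linarith

/-- the diagonal -/
noncomputable def dgL : E →L[ℝ] V :=
  ContinuousLinearMap.pi fun r => (ContinuousLinearMap.proj (R := ℝ) (φ := fun _ : Fin 2 => ℝ) r).comp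
      (ContinuousLinearMap.proj (R := ℝ) (φ := fun _ : Fin 2 => V) r)

theorem dgL_apply (F : E) : dgL F = fun r => F r r := rfl

/-- an entry -/
noncomputable def en (r l : Fin 2) : E →L[ℝ] ℝ :=
  (ContinuousLinearMap.proj (R := ℝ) (φ := fun _ : Fin 2 => ℝ) l).comp
      (ContinuousLinearMap.proj (R := ℝ) (φ := fun _ : Fin 2 => V) r)

theorem en_apply (r l : Fin 2) (F : E) : en r l F = F r l := rfl

/-- `K` times the scalar product -/
noncomputable def BK (K : ℝ) : E →L[ℝ] E →L[ℝ] ℝ :=
  K • ((en 0 0).smulRight (en 0 0) + (en 0 1).smulRight (en 0 1) + (en 1 0).smulRight (en 1 0)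
    + (en 1 1).smulRight (en 1 1))

theorem BK_apply (K : ℝ) (F G : E) : BK K F G
    = K * (F 0 0 * G 0 0 + F 0 1 * G 0 1 + F 1 0 * G 1 0 + F 1 1 * G 1 1) := by
  simp only [BK, FunLike.coe_smul, Pi.smul_apply, _root_.add_apply,
    ContinuousLinearMap.smulRight_apply, en_apply, smul_eq_mul]

/-- the one-form of the certificate -/
noncomputable def th (K : ℝ) (g : V → ℝ) (F : E) : E →L[ℝ] ℝ :=
  (2 * (2 * K * F 0 0 + fderiv ℝ g (dgL F) (Pi.single 0 1))) • en 0 1
    - (2 * (2 * K * F 1 1 + fderiv ℝ g (dgL F) (Pi.single 1 1))) • en 1 0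

theorem coef_deriv {g : V → ℝ} (hg : ContDiff ℝ 2 g) (K : ℝ) (r : Fin 2) (F : E) :
    HasFDerivAt (fun F : E => 2 * (2 * K * F r r + fderiv ℝ g (dgL F) (Pi.single r 1)))
      ((2 : ℝ) • ((2 * K) • en r r + ((fderiv ℝ (fderiv ℝ g) (dgL F)).comp dgL).flip
        (Pi.single r 1))) F := by
  have hP1 : ContDiff ℝ 1 (fderiv ℝ g) := hg.fderiv_right (by norm_num)
  have h1 : HasFDerivAt (fun F : E => fderiv ℝ g (dgL F)) ((fderiv ℝ (fderiv ℝ g) (dgL F)).comp dgL)
      F := ((hP1.differentiable (by norm_num) _).hasFDerivAt).comp F dgL.hasFDerivAt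
  have h2 := h1.clm_apply (hasFDerivAt_const (Pi.single r 1 : V) F)
  have h3 : HasFDerivAt (fun F : E => F r r) (en r r) F := (en r r).hasFDerivAt
  have h4 := ((h3.const_mul (2 * K)).add h2).const_mul 2
  refine h4.congr_fderiv ?_
  ext G
  simp

theorem contDiff_coef {g : V → ℝ} (hg : ContDiff ℝ 2 g) (K : ℝ) (r : Fin 2) :
    ContDiff ℝ 1 (fun F : E => 2 * (2 * K * F r r + fderiv ℝ g (dgL F) (Pi.single r 1))) := by
  have hP1 : ContDiff ℝ 1 (fderiv ℝ g) := hg.fderiv_right (by norm_num)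
  have h1 : ContDiff ℝ 1 (fun F : E => F r r) := (en r r).contDiff
  exact contDiff_const.mul ((contDiff_const.mul h1).add
    ((hP1.comp dgL.contDiff).clm_apply contDiff_const))

theorem contDiff_th {g : V → ℝ} (hg : ContDiff ℝ 2 g) (K : ℝ) : ContDiff ℝ 1 (th K g) :=
  ((contDiff_coef hg K 0).smul contDiff_const).sub ((contDiff_coef hg K 1).smul contDiff_const)

theorem th_deriv {g : V → ℝ} (hg : ContDiff ℝ 2 g) (K : ℝ) (F G H : E) :
    fderiv ℝ (th K g) F G H
      = 2 * (2 * K * G 0 0 + fderiv ℝ (fderiv ℝ g) (dgL F) (dgL G) (Pi.single 0 1)) * H 0 1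
        - 2 * (2 * K * G 1 1 + fderiv ℝ (fderiv ℝ g) (dgL F) (dgL G) (Pi.single 1 1)) * H 1 0 := by
  have h := ((coef_deriv hg K 0 F).smul_const (en 0 1)).sub
    ((coef_deriv hg K 1 F).smul_const (en 1 0))
  have h' : HasFDerivAt (th K g) _ F := h
  rw [h'.fderiv]
  simp only [_root_.sub_apply, ContinuousLinearMap.smulRight_apply, FunLike.coe_smul,
    Pi.smul_apply, _root_.add_apply, smul_eq_mul, en_apply, ContinuousLinearMap.flip_apply,
    ContinuousLinearMap.comp_apply]

/-- the certificate -/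
theorem diag_cert {g : V → ℝ} (hg : ContDiff ℝ 2 g) (K : ℝ)
    (hconc : ∀ v w : V, fderiv ℝ (fderiv ℝ g) v w w ≤ 0)
    (h00 : ∀ v : V, 0 ≤ 2 * K + fderiv ℝ (fderiv ℝ g) v (Pi.single 0 1) (Pi.single 0 1))
    (h11 : ∀ v : V, 0 ≤ 2 * K + fderiv ℝ (fderiv ℝ g) v (Pi.single 1 1) (Pi.single 1 1)) :
    HeatCert (fun F : E => g (dgL F) + BK K F F) (th K g) := by
  intro F G₀ G₁ hs
  rw [second_WL hg, second_WL hg, th_deriv hg, th_deriv hg]
  set S := fderiv ℝ (fderiv ℝ g) (dgL F) with hS
  have hsym : S (Pi.single 0 1) (Pi.single 1 1) = S (Pi.single 1 1) (Pi.single 0 1) := by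
    have h := (hg.contDiffAt (x := dgL F)).isSymmSndFDerivAt (by simp)
    exact h _ _
  have hexp : ∀ v w : V, S v w = v 0 * w 0 * S (Pi.single 0 1) (Pi.single 0 1)
      + v 0 * w 1 * S (Pi.single 0 1) (Pi.single 1 1)
      + v 1 * w 0 * S (Pi.single 1 1) (Pi.single 0 1)
      + v 1 * w 1 * S (Pi.single 1 1) (Pi.single 1 1) := by
    intro v w
    have hv : ∀ v : V, v = v 0 • (Pi.single 0 1 : V) + v 1 • (Pi.single 1 1 : V) := by
      intro v
      ext j
      fin_cases j <;> simp
    conv_lhs => rw [hv v, hv w]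
    simp only [map_add, map_smul, _root_.add_apply, FunLike.coe_smul, Pi.smul_apply, smul_eq_mul]
    ring
  have c1 := hconc (dgL F) ![G₁ 0 1, -(G₁ 1 0)]
  have c2 := hconc (dgL F) ![G₀ 0 1, -(G₀ 1 0)]
  have q0 := mul_nonneg (h00 (dgL F)) (sq_nonneg (G₀ 0 0 + G₁ 0 1))
  have q1 := mul_nonneg (h11 (dgL F)) (sq_nonneg (G₁ 1 1 + G₀ 1 0))
  rw [← hS] at c1 c2 q0 q1
  rw [hexp] at c1 c2
  rw [hexp (dgL G₀) (dgL G₀), hexp (dgL G₁) (dgL G₁), hexp (dgL G₀) (Pi.single 0 1),
    hexp (dgL G₀) (Pi.single 1 1), hexp (dgL G₁) (Pi.single 0 1), hexp (dgL G₁) (Pi.single 1 1),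
    BK_apply, BK_apply]
  simp only [dgL_apply, Matrix.cons_val_zero, Matrix.cons_val_one, hsym] at c1 c2 ⊢
  have hs0 := hs 0
  have hs1 := hs 1
  simp only [Pi.single_eq_same, Pi.single_eq_of_ne, ne_eq, zero_ne_one, one_ne_zero,
    not_false_eq_true]
  rw [hs0] at c2
  rw [hs0, hs1]
  set s00 := S (Pi.single 0 1) (Pi.single 0 1)
  set s10 := S (Pi.single 1 1) (Pi.single 0 1)
  set s11 := S (Pi.single 1 1) (Pi.single 1 1)
  nlinarith [c1, c2, q0, q1]

theorem hm_neg (g : V → ℝ) (n : ℕ) (x : V) : hm (fun v => - g v) n x = - hm g n x := by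
  unfold hm
  rw [← integral_neg]
  refine integral_congr_ae (Eventually.of_forall fun t => ?_)
  simp

/-- **The Dirichlet energy plus a concave function of the diagonal.** -/
theorem diag_main {g : V → ℝ} (hc : Continuous g) (K : ℝ)
    (hconc : ∀ (v w : V) (t : ℝ), 0 ≤ t → t ≤ 1 →
      (1 - t) * g v + t * g (v + w) ≤ g (v + t • w))
    (hsep : ∀ (r : Fin 2) (v : V) (s t : ℝ), 0 ≤ t → t ≤ 1 →
      g (v + t • (s • Pi.single r 1)) ≤ (1 - t) * g v + t * g (v + s • Pi.single r 1)
        + t * (1 - t) * (K * s ^ 2)) :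
    QCtrig (fun F : E => g (dgL F) + BK K F F) := by
  refine QCtrig_limit (Wn := fun n F => hm g n (dgL F) + BK K F F) (fun n => ?_) (fun n => ?_)
    (fun F => ?_) (fun R => ?_)
  · have hsm := hm_contDiff hc n
    have hsec : ∀ (r : Fin 2) (v : V),
        0 ≤ 2 * K + fderiv ℝ (fderiv ℝ (hm g n)) v (Pi.single r 1) (Pi.single r 1) := by
      intro r v
      -- the function `hm g n + K |.|²` on `V`
      have h1 : ∀ t : ℝ, HasDerivAt (fun t : ℝ => hm g n (v + t • Pi.single r 1) + K * t ^ 2)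
          (fderiv ℝ (hm g n) (v + t • Pi.single r 1) (Pi.single r 1) + 2 * K * t) t := by
        intro t
        refine (line_deriv' hsm v (Pi.single r 1) t).1.add ?_
        have h := (hasDerivAt_pow 2 t).const_mul K
        refine h.congr_deriv ?_
        simp
        ring
      have h2 : ∀ t : ℝ, HasDerivAt
          (fun t : ℝ => fderiv ℝ (hm g n) (v + t • Pi.single r 1) (Pi.single r 1) + 2 * K * t)
          (fderiv ℝ (fderiv ℝ (hm g n)) (v + t • Pi.single r 1) (Pi.single r 1) (Pi.single r 1)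
            + 2 * K) t := by
        intro t
        refine (line_deriv' hsm v (Pi.single r 1) t).2.add ?_
        have h := (hasDerivAt_id t).const_mul (2 * K)
        refine h.congr_deriv ?_
        simp
      have hconv : ConvexOn ℝ univ
          (fun t : ℝ => hm g n (v + t • Pi.single r 1) + K * t ^ 2) := by
        refine ⟨convex_univ, fun s _ u _ a b ha hb hab => ?_⟩
        have h := hm_ineq hc (fun v => hsep r v (u - s) b hb (by linarith)) n
          (v + s • Pi.single r 1)
        have ha' : a = 1 - b := by linarith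
        have e2 : v + s • Pi.single r 1 + b • ((u - s) • (Pi.single r 1 : V))
            = v + (a * s + b * u) • Pi.single r 1 := by
          rw [ha']; module
        have e3 : v + s • Pi.single r 1 + (u - s) • (Pi.single r 1 : V)
            = v + u • Pi.single r 1 := by module
        rw [e2, e3] at h
        simp only [smul_eq_mul]
        rw [ha'] at h ⊢
        nlinarith
      have hmono := hconv.monotoneOn_deriv fun t _ => (h1 t).differentiableAt
      rw [funext fun t => (h1 t).deriv] at hmono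
      have hmono' : Monotone
          (fun t : ℝ => fderiv ℝ (hm g n) (v + t • Pi.single r 1) (Pi.single r 1) + 2 * K * t) :=
        fun a b hab => hmono (mem_univ a) (mem_univ b) hab
      have h3 := (h2 0).nonneg_of_monotone hmono'
      rw [zero_smul, add_zero] at h3
      linarith
    refine QCtrig_of_cert (contDiff_WL hsm dgL (BK K)) (contDiff_th hsm K) (diag_cert hsm K ?_ ?_ ?_)
    · intro v w
      refine second_nonpos hsm v w fun s u t ht0 ht1 => ?_
      have h2 := hm_ineq (h := fun v => - g v) hc.neg (w := u • w) (t := t) (q := 0)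
        (fun v => by have := hconc v (u • w) t ht0 ht1; linarith) n (v + s • w)
      rw [hm_neg, hm_neg, hm_neg] at h2
      linarith
    · exact hsec 0
    · exact hsec 1
  · exact (contDiff_WL (hm_contDiff hc n) dgL (BK K)).continuous
  · exact (hm_tendsto hc (dgL F)).add tendsto_const_nhds
  · obtain ⟨C1, hC1⟩ := (isCompact_closedBall (0 : V)
      (‖dgL‖ * R + 1)).exists_bound_of_continuousOn hc.continuousOn
    have hBc : Continuous (fun F : E => BK K F F) := (BK K).continuous.clm_apply continuous_id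
    obtain ⟨C2, hC2⟩ := (isCompact_closedBall (0 : E) R).exists_bound_of_continuousOn
      hBc.continuousOn
    refine ⟨C1 + C2, fun n F hF => ?_⟩
    have hcF : ‖dgL F‖ ≤ ‖dgL‖ * R :=
      (dgL.le_opNorm F).trans (mul_le_mul_of_nonneg_left hF (norm_nonneg _))
    have b1 : |hm g n (dgL F)| ≤ C1 := hm_bound hc (fun x hx => by
      have := hC1 x (by rwa [mem_closedBall_zero_iff])
      rwa [Real.norm_eq_abs] at this) n hcF
    have b2 : |BK K F F| ≤ C2 := by
      have := hC2 F (by rwa [mem_closedBall_zero_iff])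
      rwa [Real.norm_eq_abs] at this
    exact (abs_add_le _ _).trans (add_le_add b1 b2)

end Pool.Agent.N555.MQ
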