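import Mathlib

/-!
# A rank-one convex function of the form `h (F e₀) + Q (F)` which is not polyconvex
-/

set_option autoImplicit false

open Set Matrix

namespace Pool.Agent.N555.MQ

/-- the function of the first column -/
noncomputable def kk (x y : ℝ) : ℝ :=
  3 * x ^ 4 + 8 * x ^ 3 * y + 8 * x ^ 2 * y ^ 2 + 8 * x * y ^ 3 + 3 * y ^ 4 - 16 * x * y
    + 2 * x ^ 2 + 2 * y ^ 2 + (x ^ 2 + y ^ 2) ^ 3 / 256

/-- the quadratic form -/
noncomputable def qq (x y z w : ℝ) : ℝ := 20000 * ((z + x) ^ 2 + (w - y) ^ 2)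

theorem kk_deriv (x y a b t : ℝ) : HasDerivAt (fun t : ℝ => kk (x + t * a) (y + t * b))
    ((12 * (x + t * a) ^ 3 + 24 * (x + t * a) ^ 2 * (y + t * b)
        + 16 * (x + t * a) * (y + t * b) ^ 2 + 8 * (y + t * b) ^ 3 - 16 * (y + t * b)
        + 4 * (x + t * a) + 6 * (x + t * a) * ((x + t * a) ^ 2 + (y + t * b) ^ 2) ^ 2 / 256) * a
      + (8 * (x + t * a) ^ 3 + 16 * (x + t * a) ^ 2 * (y + t * b)
        + 24 * (x + t * a) * (y + t * b) ^ 2 + 12 * (y + t * b) ^ 3 - 16 * (x + t * a)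
        + 4 * (y + t * b) + 6 * (y + t * b) * ((x + t * a) ^ 2 + (y + t * b) ^ 2) ^ 2 / 256) * b)
    t := by
  have hX : HasDerivAt (fun t : ℝ => x + t * a) a t := by
    simpa using ((hasDerivAt_id t).mul_const a).const_add x
  have hY : HasDerivAt (fun t : ℝ => y + t * b) b t := by
    simpa using ((hasDerivAt_id t).mul_const b).const_add y
  unfold kk
  have t1 := (hX.pow 4).const_mul 3
  have t2 := ((hX.pow 3).const_mul 8).mul hY
  have t3 := ((hX.pow 2).const_mul 8).mul (hY.pow 2)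
  have t4 := (hX.const_mul 8).mul (hY.pow 3)
  have t5 := (hY.pow 4).const_mul 3
  have t6 := (hX.const_mul 16).mul hY
  have t7 := (hX.pow 2).const_mul 2
  have t8 := (hY.pow 2).const_mul 2
  have t9 := (((hX.pow 2).add (hY.pow 2)).pow 3).div_const 256
  refine ((((((((t1.add t2).add t3).add t4).add t5).sub t6).add t7).add t8).add t9).congr_deriv ?_
  simp only [Pi.add_apply, Pi.pow_apply]
  push_cast
  ring

theorem kk_deriv2 (x y a b t : ℝ) : HasDerivAt (fun t : ℝ =>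
    ((12 * (x + t * a) ^ 3 + 24 * (x + t * a) ^ 2 * (y + t * b)
        + 16 * (x + t * a) * (y + t * b) ^ 2 + 8 * (y + t * b) ^ 3 - 16 * (y + t * b)
        + 4 * (x + t * a) + 6 * (x + t * a) * ((x + t * a) ^ 2 + (y + t * b) ^ 2) ^ 2 / 256) * a
      + (8 * (x + t * a) ^ 3 + 16 * (x + t * a) ^ 2 * (y + t * b)
        + 24 * (x + t * a) * (y + t * b) ^ 2 + 12 * (y + t * b) ^ 3 - 16 * (x + t * a)
        + 4 * (y + t * b) + 6 * (y + t * b) * ((x + t * a) ^ 2 + (y + t * b) ^ 2) ^ 2 / 256) * b))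
    (4 * (3 * (x + t * a) + 2 * (y + t * b)) ^ 2 * a ^ 2
      + 4 * (2 * (x + t * a) + 3 * (y + t * b)) ^ 2 * b ^ 2
      + 4 * (a ^ 2 + b ^ 2)
      + 2 * (24 * (x + t * a) ^ 2 + 32 * (x + t * a) * (y + t * b) + 24 * (y + t * b) ^ 2 - 16)
        * (a * b)
      + (6 * ((x + t * a) ^ 2 + (y + t * b) ^ 2) ^ 2 * (a ^ 2 + b ^ 2)
        + 24 * ((x + t * a) ^ 2 + (y + t * b) ^ 2)
          * ((x + t * a) * a + (y + t * b) * b) ^ 2) / 256) t := by
  have hX : HasDerivAt (fun t : ℝ => x + t * a) a t := by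
    simpa using ((hasDerivAt_id t).mul_const a).const_add x
  have hY : HasDerivAt (fun t : ℝ => y + t * b) b t := by
    simpa using ((hasDerivAt_id t).mul_const b).const_add y
  have hR := ((hX.pow 2).add (hY.pow 2)).pow 2
  have h1 := ((((((((hX.pow 3).const_mul 12).add (((hX.pow 2).const_mul 24).mul hY)).add
    ((hX.const_mul 16).mul (hY.pow 2))).add ((hY.pow 3).const_mul 8)).sub (hY.const_mul 16)).add
    (hX.const_mul 4)).add (((hX.const_mul 6).mul hR).div_const 256)).mul_const a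
  have h2 := ((((((((hX.pow 3).const_mul 8).add (((hX.pow 2).const_mul 16).mul hY)).add
    ((hX.const_mul 24).mul (hY.pow 2))).add ((hY.pow 3).const_mul 12)).sub (hX.const_mul 16)).add
    (hY.const_mul 4)).add (((hY.const_mul 6).mul hR).div_const 256)).mul_const b
  refine (h1.add h2).congr_deriv ?_
  simp only [Pi.add_apply, Pi.pow_apply]
  push_cast
  ring

/-- the second derivative is nonnegative in rank-one directions -/
theorem hess_nonneg (x y a b c d : ℝ) (hd : a * d - c * b = 0) :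
    0 ≤ (4 * (3 * x + 2 * y) ^ 2 * a ^ 2 + 4 * (2 * x + 3 * y) ^ 2 * b ^ 2
      + 4 * (a ^ 2 + b ^ 2)
      + 2 * (24 * x ^ 2 + 32 * x * y + 24 * y ^ 2 - 16) * (a * b)
      + (6 * (x ^ 2 + y ^ 2) ^ 2 * (a ^ 2 + b ^ 2)
        + 24 * (x ^ 2 + y ^ 2) * (x * a + y * b) ^ 2) / 256)
      + 40000 * ((c + a) ^ 2 + (d - b) ^ 2) := by
  set M := 24 * x ^ 2 + 32 * x * y + 24 * y ^ 2 - 16 with hM
  set R := x ^ 2 + y ^ 2 with hR
  set e := 4 + 6 / 256 * R ^ 2 with he
  have hR0 : 0 ≤ R := by positivity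
  have he0 : 0 < e := by positivity
  have hM2 : M ^ 2 ≤ 160000 * e := by
    have h1 : 0 ≤ (40 * R + 16) - M := by
      rw [hM, hR]; nlinarith [sq_nonneg (x - y)]
    have h2 : 0 ≤ (40 * R + 16) + M := by
      rw [hM, hR]; nlinarith [sq_nonneg (x + y), sq_nonneg x, sq_nonneg y]
    have h3 := mul_nonneg h1 h2
    rw [he]
    nlinarith [sq_nonneg (R - 1)]
  have hz : 2 * (a * b) = b * (c + a) - a * (d - b) := by linear_combination hd
  set z1 := c + a with hz1
  set z2 := d - b with hz2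
  have key : 0 ≤ e * (a ^ 2 + b ^ 2) + M * (b * z1 - a * z2) + 40000 * (z1 ^ 2 + z2 ^ 2) := by
    have h4 : 0 ≤ 4 * e * (e * (a ^ 2 + b ^ 2) + M * (b * z1 - a * z2)
        + 40000 * (z1 ^ 2 + z2 ^ 2)) := by
      have h5 : 4 * e * (e * (a ^ 2 + b ^ 2) + M * (b * z1 - a * z2)
          + 40000 * (z1 ^ 2 + z2 ^ 2)) = (2 * e * b + M * z1) ^ 2 + (2 * e * a - M * z2) ^ 2
          + (160000 * e - M ^ 2) * (z1 ^ 2 + z2 ^ 2) := by ring
      rw [h5]
      have h6 : 0 ≤ 160000 * e - M ^ 2 := by linarith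
      positivity
    by_contra hcon
    push Not at hcon
    have := mul_neg_of_pos_of_neg (show (0:ℝ) < 4 * e by positivity) hcon
    linarith
  have h7 : 2 * M * (a * b) = M * (b * z1 - a * z2) := by rw [← hz]; ring
  have h8 : 0 ≤ 4 * (3 * x + 2 * y) ^ 2 * a ^ 2 := by positivity
  have h9 : 0 ≤ 4 * (2 * x + 3 * y) ^ 2 * b ^ 2 := by positivity
  have h10 : 0 ≤ 24 * R * (x * a + y * b) ^ 2 / 256 := by positivity
  have h11 : e * (a ^ 2 + b ^ 2) = 4 * (a ^ 2 + b ^ 2) + 6 * R ^ 2 * (a ^ 2 + b ^ 2) / 256 := by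
    rw [he]; ring
  rw [h7]
  have h12 : (6 * R ^ 2 * (a ^ 2 + b ^ 2) + 24 * R * (x * a + y * b) ^ 2) / 256
      = 6 * R ^ 2 * (a ^ 2 + b ^ 2) / 256 + 24 * R * (x * a + y * b) ^ 2 / 256 := by ring
  rw [h12]
  linarith

/-- convexity along the lines in rank-one directions -/
theorem ex_line (x y z w a b c d : ℝ) (hd : a * d - c * b = 0) :
    ConvexOn ℝ univ (fun t : ℝ => kk (x + t * a) (y + t * b)
      + qq (x + t * a) (y + t * b) (z + t * c) (w + t * d)) := by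
  have hq1 : ∀ t : ℝ, HasDerivAt (fun t : ℝ => qq (x + t * a) (y + t * b) (z + t * c) (w + t * d))
      (40000 * (((z + t * c) + (x + t * a)) * (c + a) + ((w + t * d) - (y + t * b)) * (d - b)))
      t := by
    intro t
    have hX : ∀ u v : ℝ, HasDerivAt (fun t : ℝ => u + t * v) v t := fun u v => by
      simpa using ((hasDerivAt_id t).mul_const v).const_add u
    unfold qq
    have h := (((((hX z c).add (hX x a)).pow 2).add (((hX w d).sub (hX y b)).pow 2))).const_mul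
      (20000 : ℝ)
    refine h.congr_deriv ?_
    simp only [Pi.add_apply, Pi.sub_apply]
    push_cast
    ring
  have hq2 : ∀ t : ℝ, HasDerivAt (fun t : ℝ =>
      40000 * (((z + t * c) + (x + t * a)) * (c + a) + ((w + t * d) - (y + t * b)) * (d - b)))
      (40000 * ((c + a) ^ 2 + (d - b) ^ 2)) t := by
    intro t
    have hX : ∀ u v : ℝ, HasDerivAt (fun t : ℝ => u + t * v) v t := fun u v => by
      simpa using ((hasDerivAt_id t).mul_const v).const_add u
    have h := ((((hX z c).add (hX x a)).mul_const (c + a)).add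
      (((hX w d).sub (hX y b)).mul_const (d - b))).const_mul (40000 : ℝ)
    refine h.congr_deriv ?_
    ring
  have hd1 : ∀ t : ℝ, HasDerivAt (fun t : ℝ => kk (x + t * a) (y + t * b)
      + qq (x + t * a) (y + t * b) (z + t * c) (w + t * d)) _ t :=
    fun t => (kk_deriv x y a b t).add (hq1 t)
  have hd2 := fun t : ℝ => (kk_deriv2 x y a b t).add (hq2 t)
  have e1 := funext fun t => (hd1 t).deriv
  refine convexOn_univ_of_deriv2_nonneg (fun t => (hd1 t).differentiableAt) ?_ ?_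
  · rw [e1]
    exact fun t => (hd2 t).differentiableAt
  · intro t
    rw [Function.iterate_succ, Function.iterate_one, Function.comp_apply, e1]
    have e2 := (hd2 t).deriv
    refine le_of_le_of_eq ?_ e2.symm
    exact hess_nonneg (x + t * a) (y + t * b) a b c d hd

/-- the example -/
noncomputable def WE (F : Matrix (Fin 2) (Fin 2) ℝ) : ℝ :=
  kk (F 0 0) (F 1 0) + qq (F 0 0) (F 1 0) (F 0 1) (F 1 1)

theorem WE_roc (F H : Matrix (Fin 2) (Fin 2) ℝ) (hH : H.det = 0) (t : ℝ) (ht0 : 0 ≤ t)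
    (ht1 : t ≤ 1) :
    WE ((1 - t) • F + t • (F + H)) ≤ (1 - t) * WE F + t * WE (F + H) := by
  rw [Matrix.det_fin_two] at hH
  have hc := ex_line (F 0 0) (F 1 0) (F 0 1) (F 1 1) (H 0 0) (H 1 0) (H 0 1) (H 1 1) hH
  have h := hc.2 (mem_univ (0 : ℝ)) (mem_univ (1 : ℝ)) (show 0 ≤ 1 - t by linarith) ht0 (by ring)
  simp only [smul_eq_mul, mul_zero, mul_one, zero_add, one_mul, zero_mul, add_zero] at h
  unfold WE
  simp only [Matrix.add_apply, Matrix.smul_apply, smul_eq_mul]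
  have e : ∀ u v : ℝ, (1 - t) * u + t * (u + v) = u + t * v := fun u v => by ring
  rw [e, e, e, e]
  exact h

theorem WE_neg (F : Matrix (Fin 2) (Fin 2) ℝ) : WE (-F) = WE F := by
  unfold WE kk qq
  simp only [Matrix.neg_apply]
  ring

/-- the example is not polyconvex -/
theorem WE_not_poly : ¬ ∃ P : Matrix (Fin 2) (Fin 2) ℝ × ℝ → EReal, (∀ z, P z ≠ ⊥) ∧
    (∀ z w : Matrix (Fin 2) (Fin 2) ℝ × ℝ, ∀ a b : ℝ, 0 ≤ a → 0 ≤ b → a + b = 1 →
      P (a • z + b • w) ≤ (a : EReal) * P z + (b : EReal) * P w) ∧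
    ∀ F, P (F, F.det) = (WE F : EReal) := by
  rintro ⟨P, -, hconv, hP⟩
  have hmid : ∀ F : Matrix (Fin 2) (Fin 2) ℝ, P (0, F.det) ≤ (WE F : EReal) := by
    intro F
    have h := hconv (F, F.det) (-F, (-F).det) (1 / 2) (1 / 2) (by norm_num) (by norm_num)
      (by norm_num)
    rw [hP, hP, WE_neg] at h
    have hdet : (-F).det = F.det := by
      rw [Matrix.det_neg]
      simp
    have e1 : (1 / 2 : ℝ) • (F, F.det) + (1 / 2 : ℝ) • (-F, (-F).det) = (0, F.det) := by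
      rw [hdet]
      ext i j
      · simp
      · simp
        ring
    rw [e1] at h
    refine h.trans (le_of_eq ?_)
    rw [← EReal.coe_mul, ← EReal.coe_add]
    congr 1
    ring
  have h1 := hmid !![1 / 2, -1 / 2; 1 / 2, 1 / 2]
  have h2 := hmid !![4, -4; -4, -4]
  have d1 : (!![1 / 2, -1 / 2; 1 / 2, 1 / 2] : Matrix (Fin 2) (Fin 2) ℝ).det = 1 / 2 := by
    rw [Matrix.det_fin_two]
    simp
    norm_num
  have d2 : (!![4, -4; -4, -4] : Matrix (Fin 2) (Fin 2) ℝ).det = -32 := by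
    rw [Matrix.det_fin_two]
    simp
    norm_num
  rw [d1] at h1
  rw [d2] at h2
  have w1 : WE !![1 / 2, -1 / 2; 1 / 2, 1 / 2] ≤ -1 := by
    unfold WE kk qq
    simp
    norm_num
  have w2 : WE !![4, -4; -4, -4] ≤ -1 := by
    unfold WE kk qq
    simp
    norm_num
  have h1' : P (0, 1 / 2) ≤ ((-1 : ℝ) : EReal) := h1.trans (EReal.coe_le_coe_iff.2 w1)
  have h2' : P (0, -32) ≤ ((-1 : ℝ) : EReal) := h2.trans (EReal.coe_le_coe_iff.2 w2)
  have h3 := hconv (0, 1 / 2) (0, -32) (64 / 65) (1 / 65) (by norm_num) (by norm_num)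
    (by norm_num)
  have e3 : (64 / 65 : ℝ) • ((0 : Matrix (Fin 2) (Fin 2) ℝ), (1 / 2 : ℝ))
      + (1 / 65 : ℝ) • ((0 : Matrix (Fin 2) (Fin 2) ℝ), (-32 : ℝ)) = (0, (0 : Matrix (Fin 2) (Fin 2) ℝ).det) := by
    rw [Matrix.det_fin_two]
    ext i j
    · simp
    · simp
      norm_num
  rw [e3, hP] at h3
  have w0 : WE 0 = 0 := by
    unfold WE kk qq
    simp
  rw [w0] at h3
  have h4 : ((64 / 65 : ℝ) : EReal) * P (0, 1 / 2) ≤ ((64 / 65 : ℝ) : EReal) * ((-1 : ℝ) : EReal) :=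
    mul_le_mul_of_nonneg_left h1' (by exact_mod_cast (by norm_num : (0:ℝ) ≤ 64 / 65))
  have h5 : ((1 / 65 : ℝ) : EReal) * P (0, -32) ≤ ((1 / 65 : ℝ) : EReal) * ((-1 : ℝ) : EReal) :=
    mul_le_mul_of_nonneg_left h2' (by exact_mod_cast (by norm_num : (0:ℝ) ≤ 1 / 65))
  have h6 := h3.trans (add_le_add h4 h5)
  rw [← EReal.coe_mul, ← EReal.coe_mul, ← EReal.coe_add, EReal.coe_le_coe_iff] at h6
  norm_num at h6

end Pool.Agent.N555.MQ
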