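import Pool.Agent.N555.MQ.Quad

/-!
# The theorems for `2 × 2` matrices
-/

set_option autoImplicit false

open MeasureTheory Set Filter Topology Matrix

namespace Pool.Agent.N555.MQ

open Pool.Agent.W779.Morrey

/-- the inequality of quasiconvexity -/
def QC (W : Matrix (Fin 2) (Fin 2) ℝ → ℝ) : Prop :=
  ∀ F₀ : Matrix (Fin 2) (Fin 2) ℝ, ∀ Ω : Set (Fin 2 → ℝ),
    IsOpen Ω → Bornology.IsBounded Ω →
    ∀ ϑ : (Fin 2 → ℝ) → (Fin 2 → ℝ), (∃ K, LipschitzWith K ϑ) →
      (∀ x, x ∉ Ω → ϑ x = 0) →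
      W F₀ * (MeasureTheory.volume Ω).toReal ≤
        ∫ x in Ω, W (F₀ + LinearMap.toMatrix'
          ((fderiv ℝ ϑ x : (Fin 2 → ℝ) →L[ℝ] (Fin 2 → ℝ)) :
            (Fin 2 → ℝ) →ₗ[ℝ] (Fin 2 → ℝ)))

theorem QC_of_trig {W : Matrix (Fin 2) (Fin 2) ℝ → ℝ} (hc : Continuous (fun F : E => W (of F)))
    (h : QCtrig (fun F : E => W (of F))) : QC W := by
  rintro F₀ Ω hΩ hb ϑ ⟨K, hK⟩ h0
  have h1 := qc_of_trig hc h (of.symm F₀) hΩ hb hK h0
  refine h1.trans (le_of_eq ?_)
  refine integral_congr_ae (Eventually.of_forall fun x => ?_)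
  have e : of (of.symm F₀ + gr ϑ x) = F₀ + LinearMap.toMatrix'
      ((fderiv ℝ ϑ x : (Fin 2 → ℝ) →L[ℝ] (Fin 2 → ℝ)) : (Fin 2 → ℝ) →ₗ[ℝ] (Fin 2 → ℝ)) := by
    ext r l
    rw [of_apply, Pi.add_apply, Pi.add_apply, Matrix.add_apply, LinearMap.toMatrix'_apply]
    simp only [of_symm_apply, gr, ContinuousLinearMap.coe_coe]
  simp only [e]

theorem det_of (H : E) : (of H).det = dt H := by
  rw [Matrix.det_fin_two]
  rfl

theorem of_mulVec (β : V) (F : E) : (of F) *ᵥ β = col β F := by
  ext r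
  simp [Matrix.mulVec, dotProduct, col, Fin.sum_univ_two]

/-- multipliers depending on one column -/
theorem fin_multiplier (β : V) (W : Matrix (Fin 2) (Fin 2) ℝ → ℝ)
    (hW : ContDiff ℝ 2 (fun F : Fin 2 → Fin 2 → ℝ => W (Matrix.of F)))
    (hp : ∀ v : V, ∃ l : ℝ, ∀ F : Matrix (Fin 2) (Fin 2) ℝ, F *ᵥ β = v →
      ∀ H : Matrix (Fin 2) (Fin 2) ℝ,
        0 ≤ iteratedDeriv 2 (fun t : ℝ => W (F + t • H)) 0 + l * H.det) : QC W := by
  have hsec : ∀ F H : E, iteratedDeriv 2 (fun t : ℝ => W (of F + t • of H)) 0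
      = fderiv ℝ (fderiv ℝ (fun F : E => W (of F))) F H H := by
    intro F H
    have e0 : (fun t : ℝ => W (of F + t • of H)) = fun t : ℝ => W (of (F + t • H)) := rfl
    have e1 : deriv (fun t : ℝ => W (of (F + t • H)))
        = fun t : ℝ => fderiv ℝ (fun F : E => W (of F)) (F + t • H) H :=
      funext fun t => (line_deriv hW F H t).1.deriv
    have e2 := (line_deriv hW F H 0).2.deriv
    have e3 : iteratedDeriv 2 (fun t : ℝ => W (of (F + t • H))) 0
        = deriv (deriv (fun t : ℝ => W (of (F + t • H)))) 0 := by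
      rw [iteratedDeriv_succ, iteratedDeriv_one]
    rw [e0, e3, e1, e2, zero_smul, add_zero]
  refine QC_of_trig hW.continuous ?_
  by_cases hβ : β = 0
  · obtain ⟨l, hl⟩ := hp 0
    refine sel_main hW ![1, 0] (fun h => by simpa using congrFun h 0) fun v => ⟨l, fun F _ H => ?_⟩
    have h1 := hl (of F) (by rw [hβ, Matrix.mulVec_zero]) (of H)
    rw [det_of, hsec] at h1
    exact h1
  · refine sel_main hW β hβ fun v => ?_
    obtain ⟨l, hl⟩ := hp v
    refine ⟨l, fun F hF H => ?_⟩
    have h1 := hl (of F) (by rw [of_mulVec]; exact hF) (of H)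
    rw [det_of, hsec] at h1
    exact h1

theorem QCtrig_add_lin {W : E → ℝ} (hW : QCtrig W) (hc : Continuous W) (L : E →L[ℝ] ℝ) :
    QCtrig (fun F => W F + L F) := by
  intro ι _ F₀ k c d
  have hcF : Continuous (fun x => Fam k (grk k c) (grk k d) 1 x) := continuous_Fam k _ _ 1
  have hi1 : IntegrableOn (fun x => W (F₀ + Fam k (grk k c) (grk k d) 1 x)) (Icc (0 : V) 1) :=
    (hc.comp (continuous_const.add hcF)).integrableOn_Icc
  have hi2 : IntegrableOn (fun x => L (F₀ + Fam k (grk k c) (grk k d) 1 x)) (Icc (0 : V) 1) :=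
    (L.continuous.comp (continuous_const.add hcF)).integrableOn_Icc
  rw [integral_add hi1 hi2]
  have h1 := hW ι F₀ k c d
  have hcomp : ∀ r l, ∫ x in Icc (0 : V) 1, Fam k (grk k c) (grk k d) 1 x r l = 0 := by
    intro r l
    refine integral_Fam_comp k _ _ (fun i hi => ?_) r l
    have hk : ∀ e : ι → V, grk k e i = 0 := by
      intro e
      ext r l
      simp [grk, hi]
    exact ⟨hk c, hk d⟩
  have hz : ∫ x in Icc (0 : V) 1, Fam k (grk k c) (grk k d) 1 x = 0 := by
    have hir : ∀ r, Integrable (fun x => Fam k (grk k c) (grk k d) 1 x r)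
        (volume.restrict (Icc (0 : V) 1)) :=
      fun r => ((continuous_apply r).comp hcF).integrableOn_Icc
    have hirl : ∀ r l, Integrable (fun x => Fam k (grk k c) (grk k d) 1 x r l)
        (volume.restrict (Icc (0 : V) 1)) :=
      fun r l => ((continuous_apply l).comp ((continuous_apply r).comp hcF)).integrableOn_Icc
    ext r l
    rw [eval_integral hir, eval_integral (hirl r), hcomp]
    rfl
  have h2 : ∫ x in Icc (0 : V) 1, L (F₀ + Fam k (grk k c) (grk k d) 1 x) = L F₀ := by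
    have hiF : Integrable (fun x => Fam k (grk k c) (grk k d) 1 x)
      (volume.restrict (Icc (0 : V) 1)) := hcF.integrableOn_Icc
    have hprob := volume_cube'
    have hiS : Integrable (fun x => F₀ + Fam k (grk k c) (grk k d) 1 x)
      (volume.restrict (Icc (0 : V) 1)) := (integrable_const F₀).add hiF
    rw [L.integral_comp_comm hiS, integral_add (integrable_const F₀) hiF,
      hz, integral_const]
    simp
  rw [h2]
  linarith

/-- one column plus a polynomial of degree two -/
theorem fin_quad (β : V) (h : V → ℝ) (Q : QuadraticForm ℝ (Matrix (Fin 2) (Fin 2) ℝ))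
    (L : Matrix (Fin 2) (Fin 2) ℝ →ₗ[ℝ] ℝ)
    (hroc : Pool.Agent.Helper188.Morrey.RankOneConvex fun F => h (F *ᵥ β) + Q F + L F) :
    QC fun F => h (F *ᵥ β) + Q F + L F := by
  set oL : E →ₗ[ℝ] Matrix (Fin 2) (Fin 2) ℝ :=
    (Matrix.ofLinearEquiv ℝ : E ≃ₗ[ℝ] Matrix (Fin 2) (Fin 2) ℝ).toLinearMap with hoL
  have hoLa : ∀ F : E, oL F = of F := fun F => rfl
  set B : E →L[ℝ] E →L[ℝ] ℝ := LinearMap.toContinuousBilinearMap
    ((QuadraticMap.associated Q : LinearMap.BilinForm ℝ (Matrix (Fin 2) (Fin 2) ℝ)).compl₁₂ oL oL)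
    with hB
  set L' : E →L[ℝ] ℝ := LinearMap.toContinuousLinearMap (E := E) (F' := ℝ) (L ∘ₗ oL) with hL'
  have hBQ : ∀ F : E, B F F = Q (of F) := fun F => QuadraticMap.associated_eq_self_apply ℝ Q (of F)
  have hLL : ∀ F : E, L' F = L (of F) := fun F => rfl
  have hcM : Continuous fun F : Matrix (Fin 2) (Fin 2) ℝ => h (F *ᵥ β) + Q F + L F :=
    hroc.continuous
  have hc : Continuous fun F : E => h (of F *ᵥ β) + Q (of F) + L (of F) := hcM
  have key : ∀ (γ : V) (g : V → ℝ), γ ≠ 0 → (∀ F : E, h (of F *ᵥ β) = g (col γ F)) →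
      QC fun F => h (F *ᵥ β) + Q F + L F := by
    intro γ g hγ hg
    have e3 : ∀ F : E, h (of F *ᵥ β) + Q (of F) + L (of F) = g (col γ F) + B F F + L' F := by
      intro F
      rw [hg, hBQ, hLL]
    refine QC_of_trig hc ?_
    have e : (fun F : E => h (of F *ᵥ β) + Q (of F) + L (of F))
        = fun F : E => (g (col γ F) + B F F) + L' F := funext e3
    have hz := continuous_Zm γ
    have hBc : Continuous (fun F : E => B F F) := B.continuous.clm_apply continuous_id
    have hgc : Continuous g := by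
      have h1 : g = fun v => (h (of (Zm γ v) *ᵥ β) + Q (of (Zm γ v)) + L (of (Zm γ v)))
          - B (Zm γ v) (Zm γ v) - L' (Zm γ v) := by
        funext v
        rw [e3, col_Zm hγ]
        ring
      rw [h1]
      exact ((hc.comp hz).sub (hBc.comp hz)).sub (L'.continuous.comp hz)
    have hcW : Continuous (fun F : E => g (col γ F) + B F F) := by
      have e2 : (fun F : E => g (col γ F) + B F F) = fun F : E => g (colL γ F) + B F F := by
        funext F; rw [colL_apply]
      rw [e2]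
      exact (hgc.comp (colL γ).continuous).add hBc
    rw [e]
    refine QCtrig_add_lin ?_ hcW L'
    refine quad_main hgc γ hγ B fun F H hH t ht0 ht1 => ?_
    have h1 := hroc.seg (of F) (of H) (by rw [det_of]; exact hH) ht0 ht1
    have f1 := e3 (F + t • H)
    have f2 := e3 F
    have f3 := e3 (F + H)
    have g1 : L' (F + t • H) = L' F + t * L' H := by rw [map_add, map_smul, smul_eq_mul]
    have g2 : L' (F + H) = L' F + L' H := map_add _ _ _
    have h2 : g (col γ (F + t • H)) + B (F + t • H) (F + t • H) + L' (F + t • H)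
        ≤ (1 - t) * (g (col γ F) + B F F + L' F)
          + t * (g (col γ (F + H)) + B (F + H) (F + H) + L' (F + H)) := by
      rw [← f1, ← f2, ← f3]
      exact h1
    rw [g1, g2] at h2
    linarith
  by_cases hβ : β = 0
  · exact key ![1, 0] (fun _ => h 0) (fun h => by simpa using congrFun h 0)
      (fun F => by rw [hβ, Matrix.mulVec_zero])
  · exact key β h hβ fun F => by rw [of_mulVec]

end Pool.Agent.N555.MQ
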