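import Pool.Agent.N555.MQ.Diag
import Pool.Agent.N555.MQ.Ex

/-!
# The theorem on the Dirichlet energy minus a convex function of the diagonal, for matrices
-/

set_option autoImplicit false

open MeasureTheory Set Filter Topology Matrix

namespace Pool.Agent.N555.MQ

open Pool.Agent.W779.Morrey

/-- the bilinear form of the determinant -/
noncomputable def BD (c : ℝ) : E →L[ℝ] E →L[ℝ] ℝ :=
  c • ((en 0 0).smulRight (en 1 1) - (en 0 1).smulRight (en 1 0))

theorem BD_apply (c : ℝ) (F : E) : BD c F F = c * dt F := by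
  simp only [BD, FunLike.coe_smul, Pi.smul_apply, _root_.sub_apply,
    ContinuousLinearMap.smulRight_apply, en_apply, smul_eq_mul, dt]

theorem QCtrig_dt (c : ℝ) : QCtrig (fun F : E => c * dt F) := by
  have e : (fun F : E => c * dt F) = fun F : E => (fun _ : V => (0 : ℝ)) (dgL F) + BD c F F := by
    funext F
    rw [BD_apply]
    simp
  have h0 : ContDiff ℝ 2 (fun _ : V => (0 : ℝ)) := contDiff_const
  rw [e]
  refine sel_main (contDiff_WL h0 dgL (BD c)) ![1, 0] (fun h => by simpa using congrFun h 0)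
    fun v => ⟨-(2 * c), fun F _ H => ?_⟩
  rw [second_WL h0, BD_apply]
  have e1 : fderiv ℝ (fderiv ℝ (fun _ : V => (0 : ℝ))) (dgL F) (dgL H) (dgL H) = 0 := by
    have : fderiv ℝ (fun _ : V => (0 : ℝ)) = fun _ => 0 := by
      funext x; simp
    rw [this]
    simp
  rw [e1]
  linarith

theorem continuous_dt : Continuous dt := by
  unfold dt
  fun_prop

/-- **The diagonal theorem.** -/
theorem fin_diag (f : ℝ → ℝ → ℝ) (K c : ℝ) (hx : ∀ y, ConvexOn ℝ univ fun x => f x y)
    (hy : ∀ x, ConvexOn ℝ univ fun y => f x y)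
    (hK : ConvexOn ℝ univ fun z : ℝ × ℝ => K * (z.1 ^ 2 + z.2 ^ 2) - f z.1 z.2) :
    QC fun F => f (F 0 0) (F 1 1) + K * (F 0 1 ^ 2 + F 1 0 ^ 2) + c * F.det := by
  set g : V → ℝ := fun v => f (v 0) (v 1) - K * (v 0 ^ 2 + v 1 ^ 2) with hg
  have hconc : ∀ (v w : V) (t : ℝ), 0 ≤ t → t ≤ 1 →
      (1 - t) * g v + t * g (v + w) ≤ g (v + t • w) := by
    intro v w t ht0 ht1
    have h := hK.2 (mem_univ (v 0, v 1)) (mem_univ ((v + w) 0, (v + w) 1))
      (show 0 ≤ 1 - t by linarith) ht0 (by ring)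
    have e : (1 - t) • (v 0, v 1) + t • ((v + w) 0, (v + w) 1)
        = ((v + t • w) 0, (v + t • w) 1) := by
      ext
      · simp; ring
      · simp; ring
    rw [e] at h
    simp only [smul_eq_mul] at h
    simp only [hg]
    linarith
  have hgc : Continuous g := by
    have h1 : ConcaveOn ℝ univ g := by
      refine ⟨convex_univ, fun v _ w _ a b ha hb hab => ?_⟩
      have h := hconc v (w - v) b hb (by linarith)
      have ha' : a = 1 - b := by linarith
      have e1 : v + (w - v) = w := by abel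
      have e2 : v + b • (w - v) = a • v + b • w := by rw [ha']; module
      rw [e1, e2] at h
      simp only [smul_eq_mul]
      rw [ha'] at h ⊢
      exact h
    exact continuousOn_univ.1 (h1.continuousOn isOpen_univ)
  have hsep : ∀ (r : Fin 2) (v : V) (s t : ℝ), 0 ≤ t → t ≤ 1 →
      g (v + t • (s • Pi.single r 1)) ≤ (1 - t) * g v + t * g (v + s • Pi.single r 1)
        + t * (1 - t) * (K * s ^ 2) := by
    intro r v s t ht0 ht1
    fin_cases r
    · have h := (hx (v 1)).2 (mem_univ (v 0)) (mem_univ (v 0 + s))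
        (show 0 ≤ 1 - t by linarith) ht0 (by ring)
      have e : (1 - t) * v 0 + t * (v 0 + s) = v 0 + t * s := by ring
      simp only [smul_eq_mul, e] at h
      simp only [hg, Fin.zero_eta, Pi.add_apply, Pi.smul_apply, Pi.single_eq_same, smul_eq_mul,
        mul_one, Pi.single_eq_of_ne (show (1 : Fin 2) ≠ 0 by decide), mul_zero, add_zero]
      nlinarith
    · have h := (hy (v 0)).2 (mem_univ (v 1)) (mem_univ (v 1 + s))
        (show 0 ≤ 1 - t by linarith) ht0 (by ring)
      have e : (1 - t) * v 1 + t * (v 1 + s) = v 1 + t * s := by ring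
      simp only [smul_eq_mul, e] at h
      simp only [hg, Fin.mk_one, Pi.add_apply, Pi.smul_apply, Pi.single_eq_same, smul_eq_mul,
        mul_one, Pi.single_eq_of_ne (show (0 : Fin 2) ≠ 1 by decide), mul_zero, add_zero]
      nlinarith
  have h1 := diag_main hgc K hconc hsep
  have hc1 : Continuous (fun F : E => g (dgL F) + BK K F F) :=
    (hgc.comp dgL.continuous).add ((BK K).continuous.clm_apply continuous_id)
  have hc2 : Continuous (fun F : E => c * dt F) := continuous_const.mul continuous_dt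
  have e : (fun F : E => f (of F 0 0) (of F 1 1) + K * (of F 0 1 ^ 2 + of F 1 0 ^ 2)
      + c * (of F).det) = fun F : E => (g (dgL F) + BK K F F) + c * dt F := by
    funext F
    rw [det_of, BK_apply]
    simp only [hg, dgL_apply, of_apply]
    ring
  refine QC_of_trig ?_ ?_
  · rw [e]
    exact hc1.add hc2
  · rw [e]
    exact h1.add (QCtrig_dt c) hc1 hc2

/-- The Dirichlet energy minus a convex function of the diagonal. -/
theorem fin_minus (φ : ℝ × ℝ → ℝ) (K c : ℝ) (hφ : ConvexOn ℝ univ φ)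
    (hroc : Pool.Agent.Helper188.Morrey.RankOneConvex fun F =>
      K * (F 0 0 ^ 2 + F 0 1 ^ 2 + F 1 0 ^ 2 + F 1 1 ^ 2) + c * F.det - φ (F 0 0, F 1 1)) :
    QC fun F => K * (F 0 0 ^ 2 + F 0 1 ^ 2 + F 1 0 ^ 2 + F 1 1 ^ 2) + c * F.det
      - φ (F 0 0, F 1 1) := by
  have h := fin_diag (fun x y => K * (x ^ 2 + y ^ 2) - φ (x, y)) K c ?_ ?_ ?_
  · have e : (fun F : Matrix (Fin 2) (Fin 2) ℝ =>
        K * (F 0 0 ^ 2 + F 0 1 ^ 2 + F 1 0 ^ 2 + F 1 1 ^ 2) + c * F.det - φ (F 0 0, F 1 1))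
        = fun F => (K * (F 0 0 ^ 2 + F 1 1 ^ 2) - φ (F 0 0, F 1 1))
          + K * (F 0 1 ^ 2 + F 1 0 ^ 2) + c * F.det := by
      funext F; ring
    rw [e]
    exact h
  · intro y
    have hl := hroc.line !![0, 0; 0, y] !![1, 0; 0, 0] (by simp [Matrix.det_fin_two])
    refine ⟨convex_univ, fun s _ u _ a b ha hb hab => ?_⟩
    have h1 := hl.2 (mem_univ s) (mem_univ u) ha hb hab
    simp [Matrix.det_fin_two] at h1
    simp only [smul_eq_mul]
    have ha' : a = 1 - b := by linarith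
    rw [ha'] at h1 ⊢
    nlinarith
  · intro x
    have hl := hroc.line !![x, 0; 0, 0] !![0, 0; 0, 1] (by simp [Matrix.det_fin_two])
    refine ⟨convex_univ, fun s _ u _ a b ha hb hab => ?_⟩
    have h1 := hl.2 (mem_univ s) (mem_univ u) ha hb hab
    simp [Matrix.det_fin_two] at h1
    simp only [smul_eq_mul]
    have ha' : a = 1 - b := by linarith
    rw [ha'] at h1 ⊢
    nlinarith
  · have e : (fun z : ℝ × ℝ => K * (z.1 ^ 2 + z.2 ^ 2)
        - (fun x y => K * (x ^ 2 + y ^ 2) - φ (x, y)) z.1 z.2) = φ := by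
      funext z
      simp
    rw [e]
    exact hφ

/-- the quadratic form of the example -/
noncomputable def QE : QuadraticForm ℝ (Matrix (Fin 2) (Fin 2) ℝ) :=
  (20000 : ℝ) • (QuadraticMap.linMulLin
      (Matrix.entryLinearMap ℝ ℝ (0 : Fin 2) (1 : Fin 2) + Matrix.entryLinearMap ℝ ℝ 0 0)
      (Matrix.entryLinearMap ℝ ℝ 0 1 + Matrix.entryLinearMap ℝ ℝ 0 0)
    + QuadraticMap.linMulLin
      (Matrix.entryLinearMap ℝ ℝ (1 : Fin 2) (1 : Fin 2) - Matrix.entryLinearMap ℝ ℝ 1 0)
      (Matrix.entryLinearMap ℝ ℝ 1 1 - Matrix.entryLinearMap ℝ ℝ 1 0))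

theorem QE_apply (F : Matrix (Fin 2) (Fin 2) ℝ) :
    QE F = qq (F 0 0) (F 1 0) (F 0 1) (F 1 1) := by
  simp only [QE, QuadraticMap.smul_apply, QuadraticMap.add_apply, QuadraticMap.linMulLin_apply,
    LinearMap.add_apply, LinearMap.sub_apply, Matrix.entryLinearMap_apply, smul_eq_mul, qq]
  ring

theorem WE_eq (F : Matrix (Fin 2) (Fin 2) ℝ) :
    (fun v : V => kk (v 0) (v 1)) (F *ᵥ ![1, 0]) + QE F = WE F := by
  rw [QE_apply]
  simp [WE, Matrix.mulVec, dotProduct, Fin.sum_univ_two]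

end Pool.Agent.N555.MQ
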