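import Pool.Agent.W779.Morrey.Flow

/-!
# The two-form `λ(p) dp₀ ∧ dp₁` on the torus

For a periodic map `p : ℝ² → ℝ²` with continuous second derivatives and a locally bounded
measurable `λ`, the integral over the unit square of `λ(p) det ∇p` vanishes.
-/

set_option autoImplicit false

open MeasureTheory Set Filter Topology

namespace Pool.Agent.N555.MQ

open Pool.Agent.W779.Morrey

theorem null0 (a : V → ℝ) (a' b' : Fin 2 → V → ℝ) (b2 : Fin 2 → Fin 2 → V → ℝ)
    (ha : ∀ x, HasFDerivAt a (mk' fun j => a' j x) x) (hac : ∀ j, Continuous (a' j))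
    (hb : ∀ j x, HasFDerivAt (b' j) (mk' fun l => b2 j l x) x) (hbc : ∀ j l, Continuous (b2 j l))
    (hsym : ∀ x, b2 0 1 x = b2 1 0 x)
    (hpa : ∀ i x, a (x + Pi.single i 1) = a x)
    (hpb : ∀ j i x, b' j (x + Pi.single i 1) = b' j x) :
    ∫ x in Icc (0 : V) 1, (a' 0 x * b' 1 x - a' 1 x * b' 0 x) = 0 := by
  have hacont : Continuous a := continuous_iff_continuousAt.2 fun x => (ha x).continuousAt
  have hbcont : ∀ j, Continuous (b' j) := fun j =>
    continuous_iff_continuousAt.2 fun x => (hb j x).continuousAt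
  have hmkc : ∀ (K : Fin 2 → V → ℝ), (∀ j, Continuous (K j)) →
      Continuous (fun x => mk' fun j => K j x) := by
    intro K hK
    unfold mk'
    refine continuous_finsetSum _ fun j _ => ?_
    exact (ContinuousLinearMap.smulRightL ℝ V ℝ
      (ContinuousLinearMap.proj (R := ℝ) (φ := fun _ : Fin 2 => ℝ) j)).continuous.comp (hK j)
  have key := integral_div_periodic
    (![fun x => a x * b' 1 x, fun x => -(a x * b' 0 x)])
    (![fun x => a x • (mk' fun l => b2 1 l x) + b' 1 x • (mk' fun j => a' j x),
      fun x => -(a x • (mk' fun l => b2 0 l x) + b' 0 x • (mk' fun j => a' j x))])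
    (by
      intro i x
      fin_cases i
      · exact (ha x).mul (hb 1 x)
      · exact ((ha x).mul (hb 0 x)).neg)
    (by
      intro i
      fin_cases i
      · exact (hacont.smul (hmkc _ (hbc 1))).add ((hbcont 1).smul (hmkc _ hac))
      · exact ((hacont.smul (hmkc _ (hbc 0))).add ((hbcont 0).smul (hmkc _ hac))).neg)
    (by
      intro i x _
      fin_cases i
      · simp [hpa, hpb]
      · simp [hpa, hpb])
  rw [← key]
  refine integral_congr_ae (Eventually.of_forall fun x => ?_)
  simp only [Fin.sum_univ_two, Matrix.cons_val_zero, Matrix.cons_val_one,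
    _root_.add_apply, _root_.neg_apply, FunLike.coe_smul, Pi.smul_apply, smul_eq_mul, mk'_single,
    hsym x]
  ring

section det

variable (p : V → V) (J : Fin 2 → Fin 2 → V → ℝ) (J2 : Fin 2 → Fin 2 → Fin 2 → V → ℝ)

/-- the Jacobian determinant -/
def dJ (J : Fin 2 → Fin 2 → V → ℝ) (x : V) : ℝ := J 0 0 x * J 1 1 x - J 0 1 x * J 1 0 x

/-- a twice continuously differentiable periodic map with its derivatives -/
structure PMap : Prop where
  d1 : ∀ r x, HasFDerivAt (fun x => p x r) (mk' fun l => J r l x) x
  d2 : ∀ r l x, HasFDerivAt (J r l) (mk' fun m => J2 r l m x) x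
  c2 : ∀ r l m, Continuous (J2 r l m)
  symm : ∀ r x, J2 r 0 1 x = J2 r 1 0 x
  pp : ∀ i x, p (x + Pi.single i 1) = p x
  pJ : ∀ r l i x, J r l (x + Pi.single i 1) = J r l x

variable {p J J2}

theorem PMap.contJ (h : PMap p J J2) (r l : Fin 2) : Continuous (J r l) :=
  continuous_iff_continuousAt.2 fun x => (h.d2 r l x).continuousAt

theorem PMap.contp (h : PMap p J J2) : Continuous p :=
  continuous_pi fun r => continuous_iff_continuousAt.2 fun x => (h.d1 r x).continuousAt

theorem null1 (h : PMap p J J2) (g g' : ℝ → ℝ) (hg : ∀ x, HasDerivAt g (g' x) x)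
    (hgc : Continuous g') (t : V) :
    ∫ x in Icc (0 : V) 1, g' (t 0 * p x 0 + t 1 * p x 1) * dJ J x = 0 := by
  have hφ : ∀ x, HasFDerivAt (fun x => t 0 * p x 0 + t 1 * p x 1)
      (mk' fun l => t 0 * J 0 l x + t 1 * J 1 l x) x := by
    intro x
    refine (((h.d1 0 x).const_mul (t 0)).add ((h.d1 1 x).const_mul (t 1))).congr_fderiv ?_
    ext v
    simp [mk', Fin.sum_univ_two]
    ring
  have hφc : Continuous (fun x => t 0 * p x 0 + t 1 * p x 1) :=
    continuous_iff_continuousAt.2 fun x => (hφ x).continuousAt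
  have hgφ : ∀ (c : ℝ) x, HasFDerivAt (fun x => c * g (t 0 * p x 0 + t 1 * p x 1))
      (mk' fun l => c * (g' (t 0 * p x 0 + t 1 * p x 1) * (t 0 * J 0 l x + t 1 * J 1 l x))) x := by
    intro c x
    refine (((hg _).comp_hasFDerivAt x (hφ x)).const_mul c).congr_fderiv ?_
    ext v
    simp [mk', Fin.sum_univ_two]
    ring
  have hcc : ∀ (c : ℝ) l, Continuous (fun x =>
      c * (g' (t 0 * p x 0 + t 1 * p x 1) * (t 0 * J 0 l x + t 1 * J 1 l x))) := by
    intro c l
    exact continuous_const.mul ((hgc.comp hφc).mul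
      ((continuous_const.mul (h.contJ 0 l)).add (continuous_const.mul (h.contJ 1 l))))
  by_cases h0 : t 0 = 0
  · by_cases h1 : t 1 = 0
    · have e := null0 (fun x => g' 0 * p x 0) (fun l x => g' 0 * J 0 l x) (fun l => J 1 l)
        (fun l m => J2 1 l m)
        (fun x => by
          refine ((h.d1 0 x).const_mul (g' 0)).congr_fderiv ?_
          ext v
          simp [mk', Fin.sum_univ_two]
          ring)
        (fun l => continuous_const.mul (h.contJ 0 l)) (fun l x => h.d2 1 l x)
        (fun l m => h.c2 1 l m) (fun x => h.symm 1 x) (fun i x => by simp only [h.pp])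
        (fun j i x => h.pJ 1 j i x)
      rw [← e]
      refine integral_congr_ae (Eventually.of_forall fun x => ?_)
      simp only [h0, h1, zero_mul, add_zero, dJ]
      ring
    · have e := null0 (fun x => (-(t 1)⁻¹) * g (t 0 * p x 0 + t 1 * p x 1))
        (fun l x => (-(t 1)⁻¹) *
          (g' (t 0 * p x 0 + t 1 * p x 1) * (t 0 * J 0 l x + t 1 * J 1 l x)))
        (fun l => J 0 l)
        (fun l m => J2 0 l m) (hgφ _) (hcc _) (fun l x => h.d2 0 l x)
        (fun l m => h.c2 0 l m) (fun x => h.symm 0 x) (fun i x => by simp only [h.pp])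
        (fun j i x => h.pJ 0 j i x)
      rw [← e]
      refine integral_congr_ae (Eventually.of_forall fun x => ?_)
      simp only [dJ]
      field_simp
      ring
  · have e := null0 (fun x => ((t 0)⁻¹) * g (t 0 * p x 0 + t 1 * p x 1))
      (fun l x => ((t 0)⁻¹) *
        (g' (t 0 * p x 0 + t 1 * p x 1) * (t 0 * J 0 l x + t 1 * J 1 l x)))
      (fun l => J 1 l)
      (fun l m => J2 1 l m) (hgφ _) (hcc _) (fun l x => h.d2 1 l x)
      (fun l m => h.c2 1 l m) (fun x => h.symm 1 x) (fun i x => by simp only [h.pp])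
      (fun j i x => h.pJ 1 j i x)
    rw [← e]
    refine integral_congr_ae (Eventually.of_forall fun x => ?_)
    simp only [dJ]
    field_simp
    ring

theorem contdJ (h : PMap p J J2) : Continuous (dJ J) :=
  ((h.contJ 0 0).mul (h.contJ 1 1)).sub ((h.contJ 0 1).mul (h.contJ 1 0))

/-- image of the measure with density `f⁺` -/
noncomputable def ms (p : V → V) (f : V → ℝ) : Measure V :=
  Measure.map p ((volume.restrict (Icc (0 : V) 1)).withDensity fun x => ((f x).toNNReal : ENNReal))

theorem ms_finite {f : V → ℝ} (hf : Continuous f) :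
    IsFiniteMeasure (ms p f) := by
  have h1 : IsFiniteMeasure ((volume.restrict (Icc (0 : V) 1)).withDensity
      fun x => ((f x).toNNReal : ENNReal)) := by
    refine isFiniteMeasure_withDensity ?_
    have hi : Integrable (fun x => (f x)) (volume.restrict (Icc (0 : V) 1)) :=
      hf.integrableOn_Icc
    have := hi.lintegral_lt_top
    exact this.ne
  unfold ms
  infer_instance

theorem ms_integral {X : Type*} [NormedAddCommGroup X] [NormedSpace ℝ X] (hp : Continuous p)
    {f : V → ℝ} (hf : Continuous f) {g : V → X}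
    (hg : StronglyMeasurable g) :
    ∫ v, g v ∂(ms p f) = ∫ x in Icc (0 : V) 1, (max (f x) 0) • g (p x) := by
  unfold ms
  rw [integral_map hp.measurable.aemeasurable hg.aestronglyMeasurable,
    integral_withDensity_eq_integral_smul (hf.measurable.real_toNNReal)]
  rfl

theorem split_int {X : Type*} [NormedAddCommGroup X] [NormedSpace ℝ X] {f : V → ℝ}
    (hf : Continuous f) {g : V → X} (hg : AEStronglyMeasurable g (volume.restrict (Icc (0 : V) 1)))
    (C : ℝ) (hC : ∀ x, ‖g x‖ ≤ C) :
    (∫ x in Icc (0 : V) 1, (max (f x) 0) • g x) - ∫ x in Icc (0 : V) 1, (max (-f x) 0) • g x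
      = ∫ x in Icc (0 : V) 1, f x • g x := by
  have hi : ∀ u : V → ℝ, Continuous u → Integrable (fun x => u x • g x)
      (volume.restrict (Icc (0 : V) 1)) := by
    intro u hu
    have h1 : Integrable u (volume.restrict (Icc (0 : V) 1)) := hu.integrableOn_Icc
    exact h1.smul_bdd C hg (Eventually.of_forall hC)
  have i1 := hi (fun x => max (f x) 0) (hf.max continuous_const)
  have i2 := hi (fun x => max (-f x) 0) (hf.neg.max continuous_const)
  rw [← integral_sub i1 i2]
  refine integral_congr_ae (Eventually.of_forall fun x => ?_)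
  simp only
  rw [← sub_smul]
  congr 1
  rcases le_total 0 (f x) with h | h
  · rw [max_eq_left h, max_eq_right (by linarith)]; ring
  · rw [max_eq_right h, max_eq_left (by linarith)]; ring

theorem ms_eq (h : PMap p J J2) : ms p (dJ J) = ms p (fun x => - dJ J x) := by
  have hD := contdJ h
  have hDn : Continuous (fun x => - dJ J x) := hD.neg
  have := ms_finite (p := p) hD
  have := ms_finite (p := p) hDn
  refine Measure.ext_of_charFunDual ?_
  funext L
  rw [charFunDual_apply, charFunDual_apply]
  have hcont : Continuous (fun v : V => Complex.exp (L v * Complex.I)) := by fun_prop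
  have hm : StronglyMeasurable (fun v : V => Complex.exp (L v * Complex.I)) :=
    hcont.stronglyMeasurable
  rw [ms_integral h.contp hD hm, ms_integral h.contp hDn hm, ← sub_eq_zero]
  have hsplit := split_int (g := fun x => Complex.exp (L (p x) * Complex.I)) hD
    ((hcont.comp h.contp).aestronglyMeasurable) 1 (fun x => by
      rw [Complex.norm_exp_ofReal_mul_I])
  rw [hsplit]
  have hL : ∀ v : V, L v = L (Pi.single 0 1) * v 0 + L (Pi.single 1 1) * v 1 := by
    intro v
    have hv : v = v 0 • (Pi.single 0 1 : V) + v 1 • (Pi.single 1 1 : V) := by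
      ext j
      fin_cases j <;> simp
    conv_lhs => rw [hv]
    rw [map_add, map_smul, map_smul]
    simp only [smul_eq_mul]
    ring
  have hcos := null1 h Real.sin Real.cos Real.hasDerivAt_sin Real.continuous_cos
    (![L (Pi.single 0 1), L (Pi.single 1 1)])
  have hsin := null1 h (fun x => -Real.cos x) Real.sin
    (fun x => ((Real.hasDerivAt_cos x).neg).congr_deriv (neg_neg _)) Real.continuous_sin
    (![L (Pi.single 0 1), L (Pi.single 1 1)])
  simp only [Matrix.cons_val_zero, Matrix.cons_val_one, ← hL] at hcos hsin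
  have hexp : ∀ x, (dJ J x) • Complex.exp (L (p x) * Complex.I)
      = ((Real.cos (L (p x)) * dJ J x : ℝ) : ℂ) + ((Real.sin (L (p x)) * dJ J x : ℝ) : ℂ)
        * Complex.I := by
    intro x
    rw [Complex.exp_mul_I, Complex.real_smul]
    push_cast
    ring
  simp_rw [hexp]
  have hLp : Continuous (fun x => L (p x)) := L.continuous.comp h.contp
  have hcos' : ∫ x in Icc (0 : V) 1, ((Real.cos (L (p x)) * dJ J x : ℝ) : ℂ) = 0 := by
    rw [integral_complex_ofReal, hcos]; simp
  have hsin' : ∫ x in Icc (0 : V) 1, ((Real.sin (L (p x)) * dJ J x : ℝ) : ℂ) = 0 := by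
    rw [integral_complex_ofReal, hsin]; simp
  rw [integral_add, integral_mul_const, hcos', hsin']
  · simp
  · exact (Complex.continuous_ofReal.comp
      ((Real.continuous_cos.comp hLp).mul hD)).integrableOn_Icc
  · exact ((Complex.continuous_ofReal.comp
      ((Real.continuous_sin.comp hLp).mul hD)).mul continuous_const).integrableOn_Icc

/-- **The null Lagrangian.** -/
theorem null2 (h : PMap p J J2) {g : V → ℝ} (hg : Measurable g) (C : ℝ)
    (hC : ∀ x, |g (p x)| ≤ C) :
    ∫ x in Icc (0 : V) 1, g (p x) * dJ J x = 0 := by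
  have hD := contdJ h
  have hDn : Continuous (fun x => - dJ J x) := hD.neg
  have e : ∫ v, g v ∂(ms p (dJ J)) = ∫ v, g v ∂(ms p (fun x => - dJ J x)) := by rw [ms_eq h]
  rw [ms_integral h.contp hD hg.stronglyMeasurable,
    ms_integral h.contp hDn hg.stronglyMeasurable, ← sub_eq_zero] at e
  have hsplit := split_int (g := fun x => g (p x)) hD
    ((hg.comp h.contp.measurable).aestronglyMeasurable) C hC
  rw [hsplit] at e
  rw [← e]
  refine integral_congr_ae (Eventually.of_forall fun x => ?_)
  simp only [smul_eq_mul]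
  ring

end det

end Pool.Agent.N555.MQ
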