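import Pool.Agent.W779.Morrey.Scale
import Pool.Agent.N555.MQ.Null

/-!
# Monotonicity along the one-dimensional heat flow
-/

set_option autoImplicit false

open MeasureTheory Set Filter Topology

namespace Pool.Agent.N555.MQ

open Pool.Agent.W779.Morrey

/-- the image of a vector -/
def col (β : V) (F : E) : V := fun r => F r 0 * β 0 + F r 1 * β 1

/-- the determinant -/
def dt (H : E) : ℝ := H 0 0 * H 1 1 - H 0 1 * H 1 0

/-- Dissipation for the flow in the direction `β`. -/
theorem dissip {W : E → ℝ} (hW : ContDiff ℝ 2 W) (β : V) (F : V → E) (G H : Fin 2 → V → E)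
    (hF : ∀ x, HasFDerivAt F (mk' fun j => G j x) x)
    (hG : ∀ x, HasFDerivAt (fun x => β 0 • G 0 x + β 1 • G 1 x) (mk' fun l => H l x) x)
    (hGc : ∀ j, Continuous (G j)) (hH : ∀ l, Continuous (H l))
    (hpF : ∀ i x, F (x + Pi.single i 1) = F x)
    (hpG : ∀ j i x, G j (x + Pi.single i 1) = G j x) :
    ∫ x in Icc (0 : V) 1,
      (fderiv ℝ (fderiv ℝ W) (F x) (β 0 • G 0 x + β 1 • G 1 x) (β 0 • G 0 x + β 1 • G 1 x)
      + fderiv ℝ W (F x) (β 0 • H 0 x + β 1 • H 1 x)) = 0 := by
  have hFc : Continuous F := continuous_iff_continuousAt.2 fun x => (hF x).continuousAt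
  have hP1 : ContDiff ℝ 1 (fderiv ℝ W) := hW.fderiv_right (by norm_num)
  have hPd : ∀ y, HasFDerivAt (fderiv ℝ W) (fderiv ℝ (fderiv ℝ W) y) y := fun y =>
    (hP1.differentiable (by norm_num) y).hasFDerivAt
  have hHc : Continuous (fderiv ℝ (fderiv ℝ W)) := hP1.continuous_fderiv (by norm_num)
  set P := fderiv ℝ W with hPdef
  set S := fderiv ℝ P with hHdef
  have hGbc : Continuous (fun x => β 0 • G 0 x + β 1 • G 1 x) :=
    ((hGc 0).const_smul (β 0)).add ((hGc 1).const_smul (β 1))
  have d1 : ∀ x, HasFDerivAt (fun x => P (F x) (β 0 • G 0 x + β 1 • G 1 x))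
      ((P (F x)).comp (mk' fun l => H l x)
        + ((S (F x)).comp (mk' fun j => G j x)).flip (β 0 • G 0 x + β 1 • G 1 x))
      x := fun x => ((hPd (F x)).comp x (hF x)).clm_apply (hG x)
  have c1 : Continuous (fun x => (P (F x)).comp (mk' fun l => H l x)
        + ((S (F x)).comp (mk' fun j => G j x)).flip (β 0 • G 0 x + β 1 • G 1 x)) := by
    have a1 := continuous_mk' H hH
    have a2 := continuous_mk' G hGc
    have a3 : Continuous (fun x => P (F x)) := hP1.continuous.comp hFc
    have a4 : Continuous (fun x => S (F x)) := hHc.comp hFc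
    refine (a3.clm_comp a1).add ?_
    have a5 := a4.clm_comp a2
    have a6 : Continuous (fun x => ((S (F x)).comp (mk' fun j => G j x)).flip) :=
      (ContinuousLinearMap.flipₗᵢ ℝ V E ℝ).continuous.comp a5
    exact a6.clm_apply hGbc
  have key := integral_div_periodic
    (fun i x => β i * P (F x) (β 0 • G 0 x + β 1 • G 1 x))
    (fun i x => β i • ((P (F x)).comp (mk' fun l => H l x)
        + ((S (F x)).comp (mk' fun j => G j x)).flip (β 0 • G 0 x + β 1 • G 1 x)))
    (fun i x => (d1 x).const_mul (β i))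
    (fun i => c1.const_smul (β i))
    (by
      intro i x _
      simp [hpF, hpG])
  rw [← key]
  refine integral_congr_ae (Eventually.of_forall fun x => ?_)
  simp only [Fin.sum_univ_two,
    _root_.add_apply, FunLike.coe_smul, Pi.smul_apply, ContinuousLinearMap.comp_apply,
    ContinuousLinearMap.flip_apply, mk'_single, map_add, map_smul, smul_eq_mul]
  ring

/-- integrated form of a differential inequality -/
theorem fub (Φ Φ' : ℝ → V → ℝ) (hd : ∀ t x, HasDerivAt (fun t => Φ t x) (Φ' t x) t)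
    (hc : Continuous (fun p : ℝ × V => Φ p.1 p.2))
    (hc' : Continuous (fun p : ℝ × V => Φ' p.1 p.2))
    (hneg : ∀ t, ∫ x in Icc (0 : V) 1, Φ' t x ≤ 0) {T : ℝ} (hT : 0 ≤ T) :
    ∫ x in Icc (0 : V) 1, Φ T x ≤ ∫ x in Icc (0 : V) 1, Φ 0 x := by
  have hftc : ∀ x, ∫ t in (0:ℝ)..T, Φ' t x = Φ T x - Φ 0 x := by
    intro x
    rw [intervalIntegral.integral_eq_sub_of_hasDerivAt (fun s _ => hd s x)]
    refine Continuous.intervalIntegrable ?_ _ _
    exact hc'.comp (continuous_id.prodMk continuous_const)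
  have hint : Integrable (Function.uncurry Φ')
      ((volume.restrict (Set.uIoc (0:ℝ) T)).prod (volume.restrict (Icc (0 : V) 1))) := by
    rw [Measure.prod_restrict]
    have h1 : IntegrableOn (Function.uncurry Φ') (Icc (0:ℝ) T ×ˢ Icc (0:V) 1)
        (volume.prod volume) := by
      refine ContinuousOn.integrableOn_compact (isCompact_Icc.prod isCompact_Icc) ?_
      exact hc'.continuousOn
    refine h1.mono_set (Set.prod_mono ?_ le_rfl)
    rw [uIoc_of_le hT]
    exact Ioc_subset_Icc_self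
  have hswap := intervalIntegral_integral_swap hint
  have hneg2 : ∫ t in (0:ℝ)..T, ∫ x in Icc (0:V) 1, Φ' t x ≤ 0 := by
    rw [intervalIntegral.integral_of_le hT]
    exact integral_nonpos fun t => hneg t
  have hi : ∀ t, IntegrableOn (fun x => Φ t x) (Icc (0 : V) 1) :=
    fun t => (hc.comp (continuous_const.prodMk continuous_id)).integrableOn_Icc
  have hfin : ∫ x in Icc (0 : V) 1, (Φ T x - Φ 0 x)
      = (∫ x in Icc (0 : V) 1, Φ T x) - ∫ x in Icc (0 : V) 1, Φ 0 x :=
    integral_sub (hi _) (hi _)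
  have hfin2 : ∫ x in Icc (0 : V) 1, (Φ T x - Φ 0 x)
      = ∫ t in (0:ℝ)..T, ∫ x in Icc (0:V) 1, Φ' t x := by
    rw [hswap]
    exact integral_congr_ae (Eventually.of_forall fun x => (hftc x).symm)
  linarith

section fam

variable {ι : Type*} [Fintype ι]

/-- the frequency in the direction `β` -/
noncomputable def fr (β : V) (k : ι → Fin 2 → ℤ) (i : ι) : ℝ :=
  2 * Real.pi * (k i 0 * β 0 + k i 1 * β 1)

/-- the coefficients at time `t` -/
noncomputable def dm (β : V) (k : ι → Fin 2 → ℤ) (t : ℝ) (A : ι → E) : ι → E :=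
  fun i => Real.exp (-(t * fr β k i ^ 2)) • A i

/-- the coefficients at infinite time -/
noncomputable def dmi (β : V) (k : ι → Fin 2 → ℤ) (A : ι → E) : ι → E := by
  classical
  exact fun i => if fr β k i = 0 then A i else 0

/-- multiplication of the coefficients by the frequencies -/
noncomputable def ml (β : V) (k : ι → Fin 2 → ℤ) (A : ι → E) : ι → E :=
  fun i => fr β k i • A i

theorem Fam_one (k : ι → Fin 2 → ℤ) (A B : ι → E) (x : V) :
    Fam k A B 1 x = ∑ i, tm (k i) (A i) (B i) x := by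
  unfold Fam
  simp

/-- the derivative in the direction `β` -/
theorem dir_Fam (β : V) (k : ι → Fin 2 → ℤ) (A B : ι → E) (x : V) :
    β 0 • Fam k (dA k B 0) (dB k A 0) 1 x + β 1 • Fam k (dA k B 1) (dB k A 1) 1 x
      = Fam k (ml β k B) (fun i => - ml β k A i) 1 x := by
  simp only [Fam_one]
  rw [Finset.smul_sum, Finset.smul_sum, ← Finset.sum_add_distrib]
  refine Finset.sum_congr rfl fun i _ => ?_
  ext r l
  simp only [tm, dA, dB, ml, fr, Pi.add_apply, Pi.smul_apply, Pi.neg_apply, smul_eq_mul]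
  ring

theorem hasDerivAt_dm (β : V) (k : ι → Fin 2 → ℤ) (A B : ι → E) (t : ℝ) (x : V) :
    HasDerivAt (fun t => Fam k (dm β k t A) (dm β k t B) 1 x)
      (Fam k (fun i => -(fr β k i ^ 2) • dm β k t A i) (fun i => -(fr β k i ^ 2) • dm β k t B i)
        1 x) t := by
  simp only [Fam_one]
  refine HasDerivAt.fun_sum fun i _ => ?_
  have h0 : HasDerivAt (fun t : ℝ => Real.exp (-(t * fr β k i ^ 2)))
      (Real.exp (-(t * fr β k i ^ 2)) * (-(1 * fr β k i ^ 2))) t :=
    (((hasDerivAt_id t).mul_const (fr β k i ^ 2)).neg).exp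
  have h1 := (h0.smul_const (A i)).const_smul (Real.cos (ph (k i) x))
  have h2 := (h0.smul_const (B i)).const_smul (Real.sin (ph (k i) x))
  refine (h1.add h2).congr_deriv ?_
  ext r l
  simp only [tm, dm, Pi.add_apply, Pi.smul_apply, smul_eq_mul]
  ring

/-- the heat equation -/
theorem heat1 (β : V) (k : ι → Fin 2 → ℤ) (A B : ι → E) (t : ℝ) (x : V) :
    Fam k (ml β k fun i => - ml β k (dm β k t A) i) (fun i => - ml β k (ml β k (dm β k t B)) i) 1 x
      = Fam k (fun i => -(fr β k i ^ 2) • dm β k t A i) (fun i => -(fr β k i ^ 2) • dm β k t B i)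
        1 x := by
  simp only [Fam_one]
  refine Finset.sum_congr rfl fun i _ => ?_
  ext r l
  simp only [tm, dm, ml, Pi.add_apply, Pi.smul_apply, Pi.neg_apply, smul_eq_mul]
  ring

theorem continuous_tm_coef (k : Fin 2 → ℤ) {X : Type*} [TopologicalSpace X] {A B : X → E}
    {u : X → V} (hA : Continuous A) (hB : Continuous B) (hu : Continuous u) :
    Continuous (fun z => tm k (A z) (B z) (u z)) := by
  unfold tm
  exact ((Real.continuous_cos.comp ((continuous_ph k).comp hu)).smul hA).add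
    ((Real.continuous_sin.comp ((continuous_ph k).comp hu)).smul hB)

theorem continuous_Fam_coef (k : ι → Fin 2 → ℤ) {X : Type*} [TopologicalSpace X]
    {A B : X → ι → E} {u : X → V} (hA : ∀ i, Continuous fun z => A z i)
    (hB : ∀ i, Continuous fun z => B z i) (hu : Continuous u) :
    Continuous (fun z => Fam k (A z) (B z) 1 (u z)) := by
  simp only [Fam_one]
  exact continuous_finsetSum _ fun i _ => continuous_tm_coef (k i) (hA i) (hB i) hu

omit [Fintype ι] in
theorem continuous_dm (β : V) (k : ι → Fin 2 → ℤ) (A : ι → E) (i : ι) :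
    Continuous (fun t => dm β k t A i) := by
  unfold dm
  fun_prop

theorem comp_deriv {F : V → E} {G : Fin 2 → E} {x : V} (h : HasFDerivAt F (mk' G) x)
    (r l : Fin 2) : HasFDerivAt (fun x => F x r l) (mk' fun j => G j r l) x := by
  have h1 := ((ContinuousLinearMap.proj (R := ℝ) (φ := fun _ : Fin 2 => ℝ) l).comp
    (ContinuousLinearMap.proj (R := ℝ) (φ := fun _ : Fin 2 => V) r)).hasFDerivAt.comp x h
  refine h1.congr_fderiv ?_
  ext v
  simp [mk', Fin.sum_univ_two]

/-- the map `p` of the flow is twice continuously differentiable -/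
theorem pmap_fam (β : V) (F₀ : E) (k : ι → Fin 2 → ℤ) (c d : ι → V) (t : ℝ) :
    PMap (fun x => col β (F₀ + Fam k (dm β k t (grk k c)) (dm β k t (grk k d)) 1 x))
      (fun r l x => Fam k (ml β k (dm β k t (grk k d)))
        (fun i => - ml β k (dm β k t (grk k c)) i) 1 x r l)
      (fun r l m x => Fam k (dA k (fun i => - ml β k (dm β k t (grk k c)) i) m)
        (dB k (ml β k (dm β k t (grk k d))) m) 1 x r l) where
  d1 := by
    intro r x
    have h := (hasFDerivAt_Fam k (dm β k t (grk k c)) (dm β k t (grk k d)) 1 x).const_add F₀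
    have h0 := (comp_deriv h r 0).mul_const (β 0)
    have h1 := (comp_deriv h r 1).mul_const (β 1)
    refine (h0.add h1).congr_fderiv ?_
    ext v
    simp only [mk', Fin.sum_univ_two, _root_.add_apply, FunLike.coe_smul, Pi.smul_apply,
      ContinuousLinearMap.smulRight_apply, ContinuousLinearMap.proj_apply, smul_eq_mul]
    have key : ∀ l, Fam k (dA k (dm β k t (grk k d)) l) (dB k (dm β k t (grk k c)) l) 1 x r 0 * β 0
        + Fam k (dA k (dm β k t (grk k d)) l) (dB k (dm β k t (grk k c)) l) 1 x r 1 * β 1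
        = Fam k (ml β k (dm β k t (grk k d))) (fun i => - ml β k (dm β k t (grk k c)) i) 1 x r l := by
      intro l
      simp only [Fam_one, Finset.sum_apply, Finset.sum_mul, ← Finset.sum_add_distrib]
      refine Finset.sum_congr rfl fun i _ => ?_
      simp only [tm, dA, dB, ml, dm, fr, grk, Pi.add_apply, Pi.smul_apply, Pi.neg_apply,
        smul_eq_mul]
      ring
    rw [← key 0, ← key 1]
    ring
  d2 := by
    intro r l x
    exact comp_deriv (hasFDerivAt_Fam k (ml β k (dm β k t (grk k d)))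
        (fun i => - ml β k (dm β k t (grk k c)) i) 1 x) r l
  c2 := by
    intro r l m
    exact (continuous_apply l).comp ((continuous_apply r).comp (continuous_Fam k _ _ 1))
  symm := by
    intro r x
    simp only [Fam_one, Finset.sum_apply]
    refine Finset.sum_congr rfl fun i _ => ?_
    simp only [tm, dA, dB, ml, dm, fr, grk, Pi.add_apply, Pi.smul_apply, Pi.neg_apply,
      smul_eq_mul]
    ring
  pp := by
    intro i x
    simp only [Fam_periodic]
  pJ := by
    intro r l i x
    simp only [Fam_periodic]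

theorem E_bdd (k : ι → Fin 2 → ℤ) {A B : ι → E} {C : ℝ} (hA : ∀ i, ‖A i‖ ≤ C)
    (hB : ∀ i, ‖B i‖ ≤ C) (x : V) : ‖Fam k A B 1 x‖ ≤ Fintype.card ι * (2 * C) := by
  rw [Fam_one]
  refine (norm_sum_le _ _).trans ?_
  refine (Finset.sum_le_sum fun i _ => (?_ : ‖tm (k i) (A i) (B i) x‖ ≤ 2 * C)).trans ?_
  · unfold tm
    refine (norm_add_le _ _).trans ?_
    rw [norm_smul, norm_smul]
    have h1 : ‖Real.cos (ph (k i) x)‖ ≤ 1 := by
      rw [Real.norm_eq_abs]; exact Real.abs_cos_le_one _
    have h2 : ‖Real.sin (ph (k i) x)‖ ≤ 1 := by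
      rw [Real.norm_eq_abs]; exact Real.abs_sin_le_one _
    have h3 := mul_le_mul h1 (hA i) (norm_nonneg _) zero_le_one
    have h4 := mul_le_mul h2 (hB i) (norm_nonneg _) zero_le_one
    linarith
  · simp [Finset.sum_const, Finset.card_univ]

/-- one step: the energy decreases -/
theorem step_neg {W : E → ℝ} (hW : ContDiff ℝ 2 W) (β : V) {ℓ : V → ℝ} (hℓ : Measurable ℓ)
    (hb : ∀ R : ℝ, ∃ C : ℝ, ∀ v : V, ‖v‖ ≤ R → |ℓ v| ≤ C)
    (hcond : ∀ F H : E, 0 ≤ fderiv ℝ (fderiv ℝ W) F H H + ℓ (col β F) * dt H)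
    (F₀ : E) (k : ι → Fin 2 → ℤ) (c d : ι → V) (t : ℝ) :
    ∫ x in Icc (0 : V) 1, fderiv ℝ W
      (F₀ + Fam k (dm β k t (grk k c)) (dm β k t (grk k d)) 1 x)
      (Fam k (fun i => -(fr β k i ^ 2) • dm β k t (grk k c) i)
        (fun i => -(fr β k i ^ 2) • dm β k t (grk k d) i) 1 x) ≤ 0 := by
  set A := dm β k t (grk k c) with hA
  set B := dm β k t (grk k d) with hB
  have hP1 : ContDiff ℝ 1 (fderiv ℝ W) := hW.fderiv_right (by norm_num)
  have hHc : Continuous (fderiv ℝ (fderiv ℝ W)) := hP1.continuous_fderiv (by norm_num)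
  have hFc : Continuous (fun x => F₀ + Fam k A B 1 x) :=
    continuous_const.add (continuous_Fam k A B 1)
  have hPM := pmap_fam β F₀ k c d t
  have hdir : ∀ x, β 0 • Fam k (dA k B 0) (dB k A 0) 1 x + β 1 • Fam k (dA k B 1) (dB k A 1) 1 x
      = Fam k (ml β k B) (fun i => - ml β k A i) 1 x := fun x => dir_Fam β k A B x
  have hdis := dissip hW β (fun x => F₀ + Fam k A B 1 x)
    (fun j => Fam k (dA k B j) (dB k A j) 1)
    (fun l => Fam k (dA k (fun i => - ml β k A i) l) (dB k (ml β k B) l) 1)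
    (fun x => (hasFDerivAt_Fam k A B 1 x).const_add F₀)
    (fun x => by
      simp only [hdir]
      exact hasFDerivAt_Fam k (ml β k B) (fun i => - ml β k A i) 1 x)
    (fun j => continuous_Fam k _ _ 1) (fun l => continuous_Fam k _ _ 1)
    (fun i x => by rw [Fam_periodic]) (fun j i x => by rw [Fam_periodic])
  simp only [hdir] at hdis
  have hdir2 : ∀ x, β 0 • Fam k (dA k (fun i => - ml β k A i) 0) (dB k (ml β k B) 0) 1 x
      + β 1 • Fam k (dA k (fun i => - ml β k A i) 1) (dB k (ml β k B) 1) 1 x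
      = Fam k (fun i => -(fr β k i ^ 2) • A i) (fun i => -(fr β k i ^ 2) • B i) 1 x := by
    intro x
    rw [dir_Fam β k (ml β k B) (fun i => - ml β k A i) x]
    exact heat1 β k (grk k c) (grk k d) t x
  simp only [hdir2] at hdis
  -- the null Lagrangian
  have hpc := hPM.contp
  obtain ⟨R, hR⟩ := (isCompact_Icc (a := (0 : V)) (b := 1)).exists_bound_of_continuousOn
    hpc.continuousOn
  obtain ⟨C, hC⟩ := hb R
  have hbd : ∀ x, |(fun v => if ‖v‖ ≤ R then ℓ v else 0)
      (col β (F₀ + Fam k A B 1 x))| ≤ |C| := by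
    intro x
    simp only
    split_ifs with h
    · exact (hC _ h).trans (le_abs_self C)
    · simp
  have hmeas : Measurable (fun v : V => if ‖v‖ ≤ R then ℓ v else 0) :=
    Measurable.ite (measurableSet_le measurable_norm measurable_const) hℓ measurable_const
  have hnull := null2 hPM hmeas |C| hbd
  have hnull2 : ∫ x in Icc (0 : V) 1, ℓ (col β (F₀ + Fam k A B 1 x))
      * dt (Fam k (ml β k B) (fun i => - ml β k A i) 1 x) = 0 := by
    rw [← hnull]
    refine setIntegral_congr_fun measurableSet_Icc fun x hx => ?_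
    change _ = (if ‖col β (F₀ + Fam k A B 1 x)‖ ≤ R then ℓ (col β (F₀ + Fam k A B 1 x)) else 0)
        * dt (Fam k (ml β k B) (fun i => - ml β k A i) 1 x)
    rw [if_pos (hR x hx)]
  have hi1 : IntegrableOn (fun x => fderiv ℝ (fderiv ℝ W) (F₀ + Fam k A B 1 x)
      (Fam k (ml β k B) (fun i => - ml β k A i) 1 x)
      (Fam k (ml β k B) (fun i => - ml β k A i) 1 x)) (Icc (0 : V) 1) := by
    refine Continuous.integrableOn_Icc ?_
    exact ((hHc.comp hFc).clm_apply (continuous_Fam k _ _ 1)).clm_apply (continuous_Fam k _ _ 1)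
  have hi2 : IntegrableOn (fun x => fderiv ℝ W (F₀ + Fam k A B 1 x)
      (Fam k (fun i => -(fr β k i ^ 2) • A i) (fun i => -(fr β k i ^ 2) • B i) 1 x))
      (Icc (0 : V) 1) := by
    refine Continuous.integrableOn_Icc ?_
    exact (hP1.continuous.comp hFc).clm_apply (continuous_Fam k _ _ 1)
  have hdtc : Continuous (fun x => dt (Fam k (ml β k B) (fun i => - ml β k A i) 1 x)) :=
    contdJ hPM
  have hi3 : IntegrableOn (fun x => ℓ (col β (F₀ + Fam k A B 1 x))
      * dt (Fam k (ml β k B) (fun i => - ml β k A i) 1 x)) (Icc (0 : V) 1) := by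
    have h1 : IntegrableOn (fun x => (fun v => if ‖v‖ ≤ R then ℓ v else 0)
        (col β (F₀ + Fam k A B 1 x))
        * dt (Fam k (ml β k B) (fun i => - ml β k A i) 1 x)) (Icc (0 : V) 1) := by
      refine Integrable.bdd_mul (c := |C|) hdtc.integrableOn_Icc ?_ (Eventually.of_forall hbd)
      exact (hmeas.comp hpc.measurable).aestronglyMeasurable
    refine h1.congr_fun (fun x hx => ?_) measurableSet_Icc
    change (if ‖col β (F₀ + Fam k A B 1 x)‖ ≤ R then ℓ (col β (F₀ + Fam k A B 1 x)) else 0)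
        * dt (Fam k (ml β k B) (fun i => - ml β k A i) 1 x) = _
    rw [if_pos (hR x hx)]
  rw [integral_add hi1 hi2] at hdis
  have hnn : 0 ≤ ∫ x in Icc (0 : V) 1, (fderiv ℝ (fderiv ℝ W) (F₀ + Fam k A B 1 x)
      (Fam k (ml β k B) (fun i => - ml β k A i) 1 x)
      (Fam k (ml β k B) (fun i => - ml β k A i) 1 x)
      + ℓ (col β (F₀ + Fam k A B 1 x))
      * dt (Fam k (ml β k B) (fun i => - ml β k A i) 1 x)) :=
    integral_nonneg fun x => hcond _ _
  rw [integral_add hi1 hi3, hnull2] at hnn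
  linarith

/-- the energy is smaller at time `T` -/
theorem flow_le {W : E → ℝ} (hW : ContDiff ℝ 2 W) (β : V) {ℓ : V → ℝ} (hℓ : Measurable ℓ)
    (hb : ∀ R : ℝ, ∃ C : ℝ, ∀ v : V, ‖v‖ ≤ R → |ℓ v| ≤ C)
    (hcond : ∀ F H : E, 0 ≤ fderiv ℝ (fderiv ℝ W) F H H + ℓ (col β F) * dt H)
    (F₀ : E) (k : ι → Fin 2 → ℤ) (c d : ι → V) {T : ℝ} (hT : 0 ≤ T) :
    ∫ x in Icc (0 : V) 1, W (F₀ + Fam k (dm β k T (grk k c)) (dm β k T (grk k d)) 1 x)
      ≤ ∫ x in Icc (0 : V) 1, W (F₀ + Fam k (grk k c) (grk k d) 1 x) := by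
  have hP1 : ContDiff ℝ 1 (fderiv ℝ W) := hW.fderiv_right (by norm_num)
  have h00 : ∀ (A : ι → E), dm β k 0 A = A := by
    intro A
    funext i
    simp [dm]
  have hFc : Continuous (fun p : ℝ × V =>
      F₀ + Fam k (dm β k p.1 (grk k c)) (dm β k p.1 (grk k d)) 1 p.2) :=
    continuous_const.add (continuous_Fam_coef k
      (fun i => (continuous_dm β k (grk k c) i).comp continuous_fst)
      (fun i => (continuous_dm β k (grk k d) i).comp continuous_fst) continuous_snd)
  have hsm : ∀ (A : ι → E) (i : ι),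
      Continuous (fun p : ℝ × V => -(fr β k i ^ 2) • dm β k p.1 A i) := by
    intro A i
    exact ((continuous_dm β k A i).comp (continuous_fst (X := ℝ) (Y := V))).const_smul
      (-(fr β k i ^ 2))
  have hGc : Continuous (fun p : ℝ × V =>
      Fam k (fun i => -(fr β k i ^ 2) • dm β k p.1 (grk k c) i)
        (fun i => -(fr β k i ^ 2) • dm β k p.1 (grk k d) i) 1 p.2) :=
    continuous_Fam_coef k (A := fun (p : ℝ × V) i => -(fr β k i ^ 2) • dm β k p.1 (grk k c) i)
      (B := fun (p : ℝ × V) i => -(fr β k i ^ 2) • dm β k p.1 (grk k d) i)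
      (hsm _) (hsm _) continuous_snd
  have h := fub (fun t x => W (F₀ + Fam k (dm β k t (grk k c)) (dm β k t (grk k d)) 1 x))
    (fun t x => fderiv ℝ W (F₀ + Fam k (dm β k t (grk k c)) (dm β k t (grk k d)) 1 x)
      (Fam k (fun i => -(fr β k i ^ 2) • dm β k t (grk k c) i)
        (fun i => -(fr β k i ^ 2) • dm β k t (grk k d) i) 1 x))
    (fun t x => ((hW.differentiable (by norm_num) _).hasFDerivAt).comp_hasDerivAt t
      ((hasDerivAt_dm β k (grk k c) (grk k d) t x).const_add F₀))
    (hW.continuous.comp hFc) ((hP1.continuous.comp hFc).clm_apply hGc)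
    (fun t => step_neg hW β hℓ hb hcond F₀ k c d t) hT
  simpa only [h00] using h

end fam

end Pool.Agent.N555.MQ
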