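import Pool.Agent.N555.MQ.Flow

/-!
# The limit of the one-dimensional heat flow and quasiconvexity
-/

set_option autoImplicit false

open MeasureTheory Set Filter Topology

namespace Pool.Agent.N555.MQ

open Pool.Agent.W779.Morrey

/-- second derivative along a line -/
theorem line_deriv {W : E → ℝ} (hW : ContDiff ℝ 2 W) (F H : E) (t : ℝ) :
    HasDerivAt (fun t : ℝ => W (F + t • H)) (fderiv ℝ W (F + t • H) H) t ∧
    HasDerivAt (fun t : ℝ => fderiv ℝ W (F + t • H) H)
      (fderiv ℝ (fderiv ℝ W) (F + t • H) H H) t := by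
  have hP1 : ContDiff ℝ 1 (fderiv ℝ W) := hW.fderiv_right (by norm_num)
  have hl : HasDerivAt (fun t : ℝ => F + t • H) H t := by
    have h := ((hasDerivAt_id t).smul_const H).const_add F
    simpa using h
  constructor
  · exact ((hW.differentiable (by norm_num) _).hasFDerivAt).comp_hasDerivAt t hl
  · have h1 : HasDerivAt (fun t : ℝ => fderiv ℝ W (F + t • H))
        (fderiv ℝ (fderiv ℝ W) (F + t • H) H) t :=
      ((hP1.differentiable (by norm_num) _).hasFDerivAt).comp_hasDerivAt t hl
    have h2 := h1.clm_apply (hasDerivAt_const t H)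
    simpa using h2

theorem line_convex {W : E → ℝ} (hW : ContDiff ℝ 2 W) (F H : E)
    (h : ∀ t : ℝ, 0 ≤ fderiv ℝ (fderiv ℝ W) (F + t • H) H H) :
    ConvexOn ℝ univ (fun t : ℝ => W (F + t • H)) := by
  have e1 : deriv (fun t : ℝ => W (F + t • H)) = fun t : ℝ => fderiv ℝ W (F + t • H) H :=
    funext fun t => (line_deriv hW F H t).1.deriv
  refine convexOn_univ_of_deriv2_nonneg (fun t => (line_deriv hW F H t).1.differentiableAt) ?_ ?_
  · rw [e1]
    exact fun t => (line_deriv hW F H t).2.differentiableAt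
  · intro t
    rw [Function.iterate_succ, Function.iterate_one, Function.comp_apply, e1,
      (line_deriv hW F H t).2.deriv]
    exact h t

/-- the matrix `w ⊗ γ` -/
def tens (w γ : V) : E := fun r l => w r * γ l

theorem tens_convex {W : E → ℝ} (hW : ContDiff ℝ 2 W)
    (h : ∀ F H : E, dt H = 0 → 0 ≤ fderiv ℝ (fderiv ℝ W) F H H) (F₀ : E) (γ : V) :
    ConvexOn ℝ univ (fun w : V => W (F₀ + tens w γ)) := by
  refine ⟨convex_univ, fun w _ w' _ a b ha hb hab => ?_⟩
  have hc := line_convex hW (F₀ + tens w γ) (tens (w' - w) γ) (fun t => h _ _ (by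
    simp only [dt, tens]; ring))
  have h2 := hc.2 (mem_univ (0 : ℝ)) (mem_univ (1 : ℝ)) ha hb hab
  simp only [smul_eq_mul] at h2 ⊢
  have e1 : F₀ + tens w γ + (a * 0 + b * 1) • tens (w' - w) γ = F₀ + tens (a • w + b • w') γ := by
    have ha' : a = 1 - b := by linarith
    ext r l
    simp only [tens, Pi.add_apply, Pi.smul_apply, Pi.sub_apply, smul_eq_mul, ha']
    ring
  have e2 : F₀ + tens w γ + (0 : ℝ) • tens (w' - w) γ = F₀ + tens w γ := by simp
  have e3 : F₀ + tens w γ + (1 : ℝ) • tens (w' - w) γ = F₀ + tens w' γ := by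
    ext r l
    simp only [tens, Pi.add_apply, Pi.smul_apply, Pi.sub_apply, smul_eq_mul]
    ring
  rw [e1, e2, e3] at h2
  exact h2

section fam

variable {ι : Type*} [Fintype ι]

theorem integral_Fam_comp (k : ι → Fin 2 → ℤ) (A B : ι → E)
    (h0 : ∀ i, k i = 0 → A i = 0 ∧ B i = 0) (r l : Fin 2) :
    ∫ x in Icc (0 : V) 1, Fam k A B 1 x r l = 0 := by
  simp only [Fam_one, Finset.sum_apply]
  have hc : ∀ i, Continuous (fun x => tm (k i) (A i) (B i) x r l) := fun i =>
    (continuous_apply l).comp ((continuous_apply r).comp (continuous_tm _ _ _))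
  rw [integral_finsetSum _ fun i _ => (hc i).integrableOn_Icc]
  refine Finset.sum_eq_zero fun i _ => ?_
  by_cases hk : k i = 0
  · simp [(h0 i hk).1, (h0 i hk).2, tm]
  · obtain ⟨h1, h2⟩ := integral_cos_sin hk
    simp only [tm, Pi.add_apply, Pi.smul_apply, smul_eq_mul]
    rw [integral_add, integral_mul_const, integral_mul_const, h1, h2]
    · simp
    · exact ((Real.continuous_cos.comp (continuous_ph _)).mul continuous_const).integrableOn_Icc
    · exact ((Real.continuous_sin.comp (continuous_ph _)).mul continuous_const).integrableOn_Icc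

theorem volume_cube' : IsProbabilityMeasure (volume.restrict (Icc (0 : V) 1)) := by
  constructor
  rw [Measure.restrict_apply_univ]
  have h := volume_cube
  have h2 : volume (Icc (0 : V) 1) ≠ ⊤ := by
    intro h3
    rw [h3] at h
    simp at h
  rw [← ENNReal.ofReal_toReal h2, h, ENNReal.ofReal_one]

/-- Jensen's inequality for the limit -/
theorem limit_ge {W : E → ℝ} (hW : ContDiff ℝ 2 W) (β : V) (hβ : β ≠ 0)
    (h : ∀ F H : E, dt H = 0 → 0 ≤ fderiv ℝ (fderiv ℝ W) F H H)
    (F₀ : E) (k : ι → Fin 2 → ℤ) (c d : ι → V) :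
    W F₀ ≤ ∫ x in Icc (0 : V) 1, W (F₀ + Fam k (dmi β k (grk k c)) (dmi β k (grk k d)) 1 x) := by
  classical
  set γ : V := ![-(β 1), β 0] with hγ
  have hn : 0 < β 0 ^ 2 + β 1 ^ 2 := by
    rcases eq_or_ne (β 0) 0 with h0 | h0
    · have h1 : β 1 ≠ 0 := by
        intro h1
        apply hβ
        ext j
        fin_cases j
        · exact h0
        · exact h1
      positivity
    · positivity
  set Gi : V → E := fun x => Fam k (dmi β k (grk k c)) (dmi β k (grk k d)) 1 x with hGi
  have hGc : Continuous Gi := continuous_Fam k _ _ 1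
  have hGc2 : ∀ r l, Continuous (fun x => Gi x r l) := fun r l =>
    (continuous_apply l).comp ((continuous_apply r).comp hGc)
  set w : V → V := fun x r => (Gi x r 0 * γ 0 + Gi x r 1 * γ 1) / (β 0 ^ 2 + β 1 ^ 2) with hw
  have hwc : Continuous w := by
    refine continuous_pi fun r => ?_
    exact (((hGc2 r 0).mul continuous_const).add ((hGc2 r 1).mul continuous_const)).div_const _
  -- the matrices of the limit are `w ⊗ γ`
  have hcoef : ∀ (e : ι → V) (i : ι) (r l : Fin 2), dmi β k (grk k e) i r l * (β 0 ^ 2 + β 1 ^ 2)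
      = (dmi β k (grk k e) i r 0 * γ 0 + dmi β k (grk k e) i r 1 * γ 1) * γ l := by
    intro e i r l
    unfold dmi
    split_ifs with hfr
    · have h0 : (k i 0 : ℝ) * β 0 + (k i 1 : ℝ) * β 1 = 0 := by
        unfold fr at hfr
        have := Real.pi_pos
        rcases mul_eq_zero.1 hfr with h1 | h1
        · exfalso; linarith
        · exact h1
      simp only [grk, hγ]
      fin_cases l
      · simp only [Fin.zero_eta, Matrix.cons_val_zero, Matrix.cons_val_one]
        linear_combination (e i r * β 0) * h0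
      · simp only [Fin.mk_one, Matrix.cons_val_zero, Matrix.cons_val_one]
        linear_combination (e i r * β 1) * h0
    · simp
  have hGw : ∀ x, Gi x = tens (w x) γ := by
    intro x
    have h1 : ∀ r l, Gi x r l * (β 0 ^ 2 + β 1 ^ 2) = (Gi x r 0 * γ 0 + Gi x r 1 * γ 1) * γ l := by
      intro r l
      simp only [hGi, Fam_one, Finset.sum_apply, Finset.sum_mul, ← Finset.sum_add_distrib]
      refine Finset.sum_congr rfl fun i _ => ?_
      simp only [tm, Pi.add_apply, Pi.smul_apply, smul_eq_mul]
      linear_combination (Real.cos (ph (k i) x)) * hcoef c i r l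
        + (Real.sin (ph (k i) x)) * hcoef d i r l
    ext r l
    simp only [tens, hw]
    rw [div_mul_eq_mul_div, eq_div_iff hn.ne', h1 r l]
  have hint0 : ∀ r l, ∫ x in Icc (0 : V) 1, Gi x r l = 0 := by
    intro r l
    refine integral_Fam_comp k _ _ (fun i hi => ?_) r l
    have hk : ∀ e : ι → V, grk k e i = 0 := by
      intro e
      ext r l
      simp [grk, hi]
    constructor
    · unfold dmi; split_ifs
      · exact hk c
      · rfl
    · unfold dmi; split_ifs
      · exact hk d
      · rfl
  have hprob := volume_cube'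
  have hwint : Integrable w (volume.restrict (Icc (0 : V) 1)) := hwc.integrableOn_Icc
  have hw0 : ∫ x in Icc (0 : V) 1, w x = 0 := by
    ext r
    have hwi : ∀ r, Integrable (fun x => w x r) (volume.restrict (Icc (0 : V) 1)) :=
      fun r => ((continuous_apply r).comp hwc).integrableOn_Icc
    rw [eval_integral hwi]
    simp only [hw]
    rw [integral_div, integral_add, integral_mul_const, integral_mul_const, hint0, hint0]
    · simp
    · exact ((hGc2 r 0).mul continuous_const).integrableOn_Icc
    · exact ((hGc2 r 1).mul continuous_const).integrableOn_Icc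
  have hconv := tens_convex hW h F₀ γ
  have hgc : Continuous (fun w : V => W (F₀ + tens w γ)) := by
    refine hW.continuous.comp (continuous_const.add ?_)
    unfold tens
    fun_prop
  have hJ := hconv.map_integral_le (μ := volume.restrict (Icc (0 : V) 1)) (f := w)
    hgc.continuousOn isClosed_univ (Eventually.of_forall fun x => mem_univ _) hwint
    ((hgc.comp hwc).integrableOn_Icc)
  rw [hw0] at hJ
  have e0 : F₀ + tens 0 γ = F₀ := by
    ext r l
    simp [tens]
  simp only [e0] at hJ
  refine hJ.trans (le_of_eq ?_)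
  refine integral_congr_ae (Eventually.of_forall fun x => ?_)
  change W (F₀ + tens (w x) γ) = W (F₀ + Gi x)
  rw [hGw]

theorem limit_tendsto {W : E → ℝ} (hW : Continuous W) (β : V)
    (F₀ : E) (k : ι → Fin 2 → ℤ) (A B : ι → E) :
    Tendsto (fun n : ℕ => ∫ x in Icc (0 : V) 1,
      W (F₀ + Fam k (dm β k n A) (dm β k n B) 1 x)) atTop
      (𝓝 (∫ x in Icc (0 : V) 1, W (F₀ + Fam k (dmi β k A) (dmi β k B) 1 x))) := by
  classical
  have hle : ∀ (A : ι → E) (n : ℕ) (i : ι), ‖dm β k n A i‖ ≤ ‖A i‖ := by
    intro A n i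
    unfold dm
    rw [norm_smul, Real.norm_eq_abs, abs_of_pos (Real.exp_pos _)]
    refine mul_le_of_le_one_left (norm_nonneg _) ?_
    rw [Real.exp_le_one_iff]
    have : 0 ≤ (n : ℝ) * fr β k i ^ 2 := by positivity
    linarith
  have hlim : ∀ (A : ι → E) (i : ι), Tendsto (fun n : ℕ => dm β k n A i) atTop
      (𝓝 (dmi β k A i)) := by
    intro A i
    unfold dm dmi
    split_ifs with hfr
    · simp [hfr]
    · have h1 : Tendsto (fun n : ℕ => Real.exp (-((n : ℝ) * fr β k i ^ 2))) atTop (𝓝 0) := by
        refine Real.tendsto_exp_neg_atTop_nhds_zero.comp ?_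
        refine Tendsto.atTop_mul_const (by positivity) ?_
        exact tendsto_natCast_atTop_atTop
      have h2 := h1.smul_const (A i)
      simpa using h2
  set C : ℝ := ∑ i, (‖A i‖ + ‖B i‖) with hC
  have hAC : ∀ i, ‖A i‖ ≤ C := by
    intro i
    have := Finset.single_le_sum (f := fun i => ‖A i‖ + ‖B i‖) (fun j _ => by positivity)
      (Finset.mem_univ i)
    linarith [norm_nonneg (B i)]
  have hBC : ∀ i, ‖B i‖ ≤ C := by
    intro i
    have := Finset.single_le_sum (f := fun i => ‖A i‖ + ‖B i‖) (fun j _ => by positivity)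
      (Finset.mem_univ i)
    linarith [norm_nonneg (A i)]
  have hbd : ∀ (n : ℕ) x, ‖F₀ + Fam k (dm β k n A) (dm β k n B) 1 x‖
      ≤ ‖F₀‖ + Fintype.card ι * (2 * C) := by
    intro n x
    refine (norm_add_le _ _).trans (add_le_add le_rfl ?_)
    exact E_bdd k (fun i => (hle A n i).trans (hAC i)) (fun i => (hle B n i).trans (hBC i)) x
  obtain ⟨K, hK⟩ := (isCompact_closedBall (0 : E)
    (‖F₀‖ + Fintype.card ι * (2 * C))).exists_bound_of_continuousOn hW.continuousOn
  refine tendsto_integral_of_dominated_convergence (fun _ => K) (fun n => ?_) ?_ (fun n => ?_) ?_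
  · exact (hW.comp (continuous_const.add (continuous_Fam k _ _ 1))).aestronglyMeasurable
  · exact continuous_const.integrableOn_Icc
  · refine Eventually.of_forall fun x => ?_
    refine hK _ ?_
    rw [mem_closedBall_zero_iff]
    exact hbd n x
  · refine Eventually.of_forall fun x => ?_
    refine (hW.tendsto _).comp ?_
    refine Tendsto.const_add F₀ ?_
    simp only [Fam_one]
    refine tendsto_finsetSum _ fun i _ => ?_
    unfold tm
    exact ((hlim A i).const_smul _).add ((hlim B i).const_smul _)

/-- **Functions of class `C²` with a second order multiplier depending on one column are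
quasiconvex** (for trigonometric polynomials). -/
theorem trig_main {W : E → ℝ} (hW : ContDiff ℝ 2 W) (β : V) (hβ : β ≠ 0) {ℓ : V → ℝ}
    (hℓ : Measurable ℓ) (hb : ∀ R : ℝ, ∃ C : ℝ, ∀ v : V, ‖v‖ ≤ R → |ℓ v| ≤ C)
    (hcond : ∀ F H : E, 0 ≤ fderiv ℝ (fderiv ℝ W) F H H + ℓ (col β F) * dt H) : QCtrig W := by
  intro ι _ F₀ k c d
  have h1 := limit_ge hW β hβ (fun F H h0 => by simpa [h0] using hcond F H) F₀ k c d
  have h2 := limit_tendsto hW.continuous β F₀ k (grk k c) (grk k d)
  refine h1.trans (le_of_tendsto h2 (Eventually.of_forall fun n => ?_))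
  exact flow_le hW β hℓ hb hcond F₀ k c d (Nat.cast_nonneg n)

end fam

end Pool.Agent.N555.MQ
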