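import Pool.Agent.N555.MQ.Sel

/-!
# Functions of one column plus a quadratic form
-/

set_option autoImplicit false

open MeasureTheory Set Filter Topology

namespace Pool.Agent.N555.MQ

open Pool.Agent.W779.Morrey

section mol

variable {h : V → ℝ}

/-- the mollified function -/
noncomputable def hm (h : V → ℝ) (n : ℕ) (x : V) : ℝ :=
  ∫ t, (bmp n).normed volume t * h (x - t)

theorem hm_contDiff (hc : Continuous h) (n : ℕ) : ContDiff ℝ 2 (hm h n) := by
  have h := (bmp n).hasCompactSupport_normed (μ := (volume : Measure V)) |>.contDiff_convolution_left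
    (ContinuousLinearMap.lsmul ℝ ℝ) ((bmp n).contDiff_normed (n := 2))
    (hc.locallyIntegrable (μ := (volume : Measure V)))
  exact h

theorem hm_tendsto (hc : Continuous h) (x : V) :
    Tendsto (fun n => hm h n x) atTop (𝓝 (h x)) := by
  refine ContDiffBump.convolution_tendsto_right_of_continuous (φ := bmp) (μ := volume) ?_ hc x
  change Tendsto (fun n : ℕ => 1 / ((n : ℝ) + 8)) atTop (𝓝 0)
  exact tendsto_const_nhds.div_atTop (tendsto_atTop_add_const_right _ _
    tendsto_natCast_atTop_atTop)

theorem hm_int (hc : Continuous h) (n : ℕ) (x : V) :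
    Integrable (fun t => (bmp n).normed volume t * h (x - t)) := by
  refine Continuous.integrable_of_hasCompactSupport ?_ ?_
  · exact (bmp n).continuous_normed.mul (hc.comp (continuous_const.sub continuous_id))
  · exact ((bmp n).hasCompactSupport_normed (μ := (volume : Measure V))).mul_right

theorem bmp_norm {n : ℕ} {t : V} (h : (bmp n).normed volume t ≠ 0) : ‖t‖ ≤ 1 := by
  rw [pi_norm_le_iff_of_nonneg zero_le_one]
  intro i
  have := bmp_zero h i
  rw [Real.norm_eq_abs]
  linarith

theorem hm_bound (hc : Continuous h) {R C : ℝ} (hC : ∀ x, ‖x‖ ≤ R + 1 → |h x| ≤ C) (n : ℕ)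
    {x : V} (hx : ‖x‖ ≤ R) : |hm h n x| ≤ C := by
  unfold hm
  rw [← Real.norm_eq_abs]
  refine (norm_integral_le_integral_norm _).trans ?_
  have h1 : ∫ t, (bmp n).normed (volume : Measure V) t * C = C := by
    rw [integral_mul_const, (bmp n).integral_normed, one_mul]
  rw [← h1]
  refine integral_mono (hm_int hc n x).norm ((bmp n).integrable_normed.mul_const C) fun t => ?_
  simp only
  rw [norm_mul, Real.norm_eq_abs, abs_of_nonneg ((bmp n).nonneg_normed t)]
  by_cases ht : (bmp n).normed (volume : Measure V) t = 0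
  · simp [ht]
  · refine mul_le_mul_of_nonneg_left ?_ ((bmp n).nonneg_normed t)
    rw [Real.norm_eq_abs]
    refine hC _ ?_
    have := norm_sub_le x t
    have := bmp_norm ht
    linarith

theorem hm_ineq (hc : Continuous h) {w : V} {t q : ℝ}
    (hh : ∀ v : V, h (v + t • w) ≤ (1 - t) * h v + t * h (v + w) + q) (n : ℕ) (v : V) :
    hm h n (v + t • w) ≤ (1 - t) * hm h n v + t * hm h n (v + w) + q := by
  have h1 : ∫ s, (bmp n).normed (volume : Measure V) s * q = q := by
    rw [integral_mul_const, (bmp n).integral_normed, one_mul]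
  have i1 := hm_int hc n v
  have i2 := hm_int hc n (v + w)
  have i3 : Integrable (fun s => (bmp n).normed (volume : Measure V) s * q) :=
    (bmp n).integrable_normed.mul_const q
  have j1 : Integrable (fun s => (1 - t) * ((bmp n).normed (volume : Measure V) s * h (v - s))) :=
    i1.const_mul _
  have j2 : Integrable (fun s => t * ((bmp n).normed (volume : Measure V) s * h (v + w - s))) :=
    i2.const_mul _
  have j12 : Integrable (fun s => (1 - t) * ((bmp n).normed (volume : Measure V) s * h (v - s))
      + t * ((bmp n).normed (volume : Measure V) s * h (v + w - s))) := j1.add j2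
  have e : (1 - t) * hm h n v + t * hm h n (v + w) + q
      = ∫ s, ((1 - t) * ((bmp n).normed (volume : Measure V) s * h (v - s))
        + t * ((bmp n).normed (volume : Measure V) s * h (v + w - s))
        + (bmp n).normed (volume : Measure V) s * q) := by
    rw [integral_add j12 i3, integral_add j1 j2, integral_const_mul, integral_const_mul, h1]
    rfl
  rw [e]
  unfold hm
  refine integral_mono (hm_int hc n _) (j12.add i3) fun s => ?_
  have h2 := hh (v - s)
  have e1 : v - s + t • w = v + t • w - s := by abel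
  have e2 : v - s + w = v + w - s := by abel
  rw [e1, e2] at h2
  have h3 := mul_le_mul_of_nonneg_left h2 ((bmp n).nonneg_normed (μ := (volume : Measure V)) s)
  simp only [Pi.add_apply]
  linarith

end mol

section gen

variable {X : Type*} [NormedAddCommGroup X] [NormedSpace ℝ X]

/-- second derivative along a line -/
theorem line_deriv' {W : X → ℝ} (hW : ContDiff ℝ 2 W) (F H : X) (t : ℝ) :
    HasDerivAt (fun t : ℝ => W (F + t • H)) (fderiv ℝ W (F + t • H) H) t ∧
    HasDerivAt (fun t : ℝ => fderiv ℝ W (F + t • H) H)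
      (fderiv ℝ (fderiv ℝ W) (F + t • H) H H) t := by
  have hP1 : ContDiff ℝ 1 (fderiv ℝ W) := hW.fderiv_right (by norm_num)
  have hl : HasDerivAt (fun t : ℝ => F + t • H) H t := by
    have h := ((hasDerivAt_id t).smul_const H).const_add F
    simpa using h
  constructor
  · exact ((hW.differentiable (by norm_num) _).hasFDerivAt).comp_hasDerivAt t hl
  · have h1 : HasDerivAt (fun t : ℝ => fderiv ℝ W (F + t • H))
        (fderiv ℝ (fderiv ℝ W) (F + t • H) H) t :=
      ((hP1.differentiable (by norm_num) _).hasFDerivAt).comp_hasDerivAt t hl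
    have h2 := h1.clm_apply (hasDerivAt_const t H)
    simpa using h2

/-- a convexity inequality along the multiples of `H` gives a nonnegative second derivative -/
theorem second_nonneg {W : X → ℝ} (hW : ContDiff ℝ 2 W) (F H : X)
    (hc : ∀ (s u t : ℝ), 0 ≤ t → t ≤ 1 →
      W (F + s • H + t • (u • H)) ≤ (1 - t) * W (F + s • H) + t * W (F + s • H + u • H)) :
    0 ≤ fderiv ℝ (fderiv ℝ W) F H H := by
  have e1 : deriv (fun t : ℝ => W (F + t • H)) = fun t : ℝ => fderiv ℝ W (F + t • H) H :=
    funext fun t => (line_deriv' hW F H t).1.deriv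
  have hconv : ConvexOn ℝ univ (fun t : ℝ => W (F + t • H)) := by
    refine ⟨convex_univ, fun s _ u _ a b ha hb hab => ?_⟩
    have h := hc s (u - s) b hb (by linarith)
    have ha' : a = 1 - b := by linarith
    simp only [smul_eq_mul]
    have e2 : F + s • H + b • ((u - s) • H) = F + (a * s + b * u) • H := by
      rw [ha']; module
    have e3 : F + s • H + (u - s) • H = F + u • H := by module
    rw [e2, e3] at h
    rw [ha'] at h ⊢
    exact h
  have hmono := hconv.monotoneOn_deriv fun t _ => (line_deriv' hW F H t).1.differentiableAt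
  rw [e1] at hmono
  have hmono' : Monotone (fun t : ℝ => fderiv ℝ W (F + t • H) H) :=
    fun a b hab => hmono (mem_univ a) (mem_univ b) hab
  have h2 := (line_deriv' hW F H 0).2.nonneg_of_monotone hmono'
  simpa using h2

end gen

/-- the linear map `F ↦ F β` -/
noncomputable def colL (β : V) : E →L[ℝ] V :=
  ContinuousLinearMap.pi fun r =>
    (β 0) • ((ContinuousLinearMap.proj (R := ℝ) (φ := fun _ : Fin 2 => ℝ) 0).comp
      (ContinuousLinearMap.proj (R := ℝ) (φ := fun _ : Fin 2 => V) r))
    + (β 1) • ((ContinuousLinearMap.proj (R := ℝ) (φ := fun _ : Fin 2 => ℝ) 1).comp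
      (ContinuousLinearMap.proj (R := ℝ) (φ := fun _ : Fin 2 => V) r))

theorem colL_apply (β : V) (F : E) : colL β F = col β F := by
  ext r
  simp [colL, col]
  ring

theorem contDiff_WB {h : V → ℝ} (hh : ContDiff ℝ 2 h) (β : V) (B : E →L[ℝ] E →L[ℝ] ℝ) :
    ContDiff ℝ 2 (fun F : E => h (col β F) + B F F) := by
  have e : (fun F : E => h (col β F) + B F F) = fun F : E => h (colL β F) + B F F := by
    funext F; rw [colL_apply]
  rw [e]
  refine (hh.comp (colL β).contDiff).add ?_
  exact (B.contDiff.clm_apply contDiff_id)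

/-- the second derivative of `h (F β) + B (F, F)` -/
theorem second_WB {h : V → ℝ} (hh : ContDiff ℝ 2 h) (β : V) (B : E →L[ℝ] E →L[ℝ] ℝ) (F H : E) :
    fderiv ℝ (fderiv ℝ (fun F : E => h (col β F) + B F F)) F H H
      = fderiv ℝ (fderiv ℝ h) (col β F) (col β H) (col β H) + 2 * B H H := by
  set W : E → ℝ := fun F : E => h (col β F) + B F F with hWdef
  have hW := contDiff_WB hh β B
  have hcol : ∀ t : ℝ, col β (F + t • H) = col β F + t • col β H := by
    intro t
    rw [← colL_apply, ← colL_apply, ← colL_apply, map_add, map_smul]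
  have h1 : ∀ t : ℝ, HasDerivAt (fun t : ℝ => W (F + t • H))
      (fderiv ℝ h (col β F + t • col β H) (col β H) + (B F H + B H F + 2 * t * B H H)) t := by
    intro t
    have e : (fun t : ℝ => W (F + t • H)) = fun t : ℝ => h (col β F + t • col β H)
        + (B F F + t * (B F H + B H F) + t ^ 2 * B H H) := by
      funext t
      simp only [hWdef, hcol, map_add, map_smul, _root_.add_apply, FunLike.coe_smul, Pi.smul_apply,
        smul_eq_mul]
      ring
    rw [e]
    refine (line_deriv' hh (col β F) (col β H) t).1.add ?_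
    have h2 := ((hasDerivAt_const t (B F F)).add ((hasDerivAt_id t).mul_const
      (B F H + B H F))).add ((hasDerivAt_pow 2 t).mul_const (B H H))
    refine h2.congr_deriv ?_
    simp
  have h3 : (fun t : ℝ => fderiv ℝ W (F + t • H) H)
      = fun t : ℝ => fderiv ℝ h (col β F + t • col β H) (col β H)
        + (B F H + B H F + 2 * t * B H H) :=
    funext fun t => (line_deriv' hW F H t).1.unique (h1 t)
  have h4 := (line_deriv' hW F H 0).2
  rw [h3] at h4
  have h5 : HasDerivAt (fun t : ℝ => fderiv ℝ h (col β F + t • col β H) (col β H)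
        + (B F H + B H F + 2 * t * B H H))
      (fderiv ℝ (fderiv ℝ h) (col β F + (0 : ℝ) • col β H) (col β H) (col β H)
        + 2 * B H H) 0 := by
    refine (line_deriv' hh (col β F) (col β H) 0).2.add ?_
    have h6 := (((hasDerivAt_id (0:ℝ)).const_mul 2).mul_const (B H H)).const_add (B F H + B H F)
    refine h6.congr_deriv ?_
    simp
  have h7 := h4.unique h5
  simpa using h7

/-- limits of functions which satisfy the inequality of quasiconvexity -/
theorem QCtrig_limit {W : E → ℝ} {Wn : ℕ → E → ℝ} (hq : ∀ n, QCtrig (Wn n))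
    (hc : ∀ n, Continuous (Wn n)) (hlim : ∀ F, Tendsto (fun n => Wn n F) atTop (𝓝 (W F)))
    (hbd : ∀ R : ℝ, ∃ C : ℝ, ∀ n F, ‖F‖ ≤ R → |Wn n F| ≤ C) : QCtrig W := by
  intro ι _ F₀ k c d
  have hcF : Continuous (fun x => F₀ + Fam k (grk k c) (grk k d) 1 x) :=
    continuous_const.add (continuous_Fam k _ _ 1)
  obtain ⟨R, hR⟩ := (isCompact_Icc (a := (0 : V)) (b := 1)).exists_bound_of_continuousOn
    hcF.continuousOn
  obtain ⟨C, hC⟩ := hbd R
  have h1 : Tendsto (fun n => ∫ x in Icc (0 : V) 1, Wn n (F₀ + Fam k (grk k c) (grk k d) 1 x))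
      atTop (𝓝 (∫ x in Icc (0 : V) 1, W (F₀ + Fam k (grk k c) (grk k d) 1 x))) := by
    refine tendsto_integral_of_dominated_convergence (fun _ => C) (fun n => ?_) ?_ (fun n => ?_) ?_
    · exact ((hc n).comp hcF).aestronglyMeasurable
    · exact continuous_const.integrableOn_Icc
    · rw [ae_restrict_iff' measurableSet_Icc]
      refine Eventually.of_forall fun x hx => ?_
      rw [Real.norm_eq_abs]
      exact hC n _ (hR x hx)
    · exact Eventually.of_forall fun x => hlim _
  exact le_of_tendsto_of_tendsto' (hlim F₀) h1 fun n => hq n ι F₀ k c d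

/-- **Functions of one column plus a quadratic form.** -/
theorem quad_main {h : V → ℝ} (hc : Continuous h) (β : V) (hβ : β ≠ 0) (B : E →L[ℝ] E →L[ℝ] ℝ)
    (hroc : ∀ F H : E, dt H = 0 → ∀ t : ℝ, 0 ≤ t → t ≤ 1 →
      h (col β (F + t • H)) + B (F + t • H) (F + t • H)
        ≤ (1 - t) * (h (col β F) + B F F) + t * (h (col β (F + H)) + B (F + H) (F + H))) :
    QCtrig (fun F : E => h (col β F) + B F F) := by
  have hcolt : ∀ (F H : E) (t : ℝ), col β (F + t • H) = col β F + t • col β H := by
    intro F H t
    rw [← colL_apply, ← colL_apply, ← colL_apply, map_add, map_smul]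
  -- the inequality for `h`
  have hh : ∀ H : E, dt H = 0 → ∀ t : ℝ, 0 ≤ t → t ≤ 1 → ∀ v : V,
      h (v + t • col β H) ≤ (1 - t) * h v + t * h (v + col β H) + t * (1 - t) * B H H := by
    intro H hH t ht0 ht1 v
    have h1 := hroc (Zm β v) H hH t ht0 ht1
    rw [hcolt, col_Zm hβ, col_add, col_Zm hβ] at h1
    simp only [map_add, map_smul, _root_.add_apply, FunLike.coe_smul, Pi.smul_apply,
      smul_eq_mul] at h1
    linarith
  refine QCtrig_limit (Wn := fun n F => hm h n (col β F) + B F F) (fun n => ?_) (fun n => ?_)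
    (fun F => ?_) (fun R => ?_)
  · have hsm := hm_contDiff hc n
    refine sel_main (contDiff_WB hsm β B) β hβ fun v => ?_
    set Bv : E →L[ℝ] E →L[ℝ] ℝ :=
      (fderiv ℝ (fderiv ℝ (hm h n)) v).bilinearComp (colL β) (colL β) + (2 : ℝ) • B with hBv
    have hBva : ∀ H : E, Bv H H
        = fderiv ℝ (fderiv ℝ (hm h n)) v (col β H) (col β H) + 2 * B H H := by
      intro H
      simp [hBv, colL_apply]
    obtain ⟨l, hl⟩ := slemma Bv (fun H hH => by
      rw [hBva]
      have h1 : fderiv ℝ (fderiv ℝ (fun F : E => hm h n (col β F) + B F F)) (Zm β v) H H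
          = fderiv ℝ (fderiv ℝ (hm h n)) v (col β H) (col β H) + 2 * B H H := by
        rw [second_WB hsm β B, col_Zm hβ]
      rw [← h1]
      refine second_nonneg (contDiff_WB hsm β B) _ _ fun s u t ht0 ht1 => ?_
      have hdu : dt (u • H) = 0 := by
        have : dt (u • H) = u ^ 2 * dt H := by
          simp only [dt, Pi.smul_apply, smul_eq_mul]; ring
        rw [this, hH, mul_zero]
      have h2 := hm_ineq hc (fun v => hh (u • H) hdu t ht0 ht1 v) n (col β (Zm β v + s • H))
      rw [← hcolt, ← col_add] at h2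
      simp only [map_add, map_smul, _root_.add_apply, FunLike.coe_smul, Pi.smul_apply,
        smul_eq_mul] at h2 ⊢
      linarith)
    refine ⟨l, fun F hF H => ?_⟩
    have h3 := hl H
    rw [hBva] at h3
    rw [second_WB hsm β B, hF]
    exact h3
  · exact (contDiff_WB (hm_contDiff hc n) β B).continuous
  · exact (hm_tendsto hc (col β F)).add tendsto_const_nhds
  · obtain ⟨C1, hC1⟩ := (isCompact_closedBall (0 : V)
      (‖colL β‖ * R + 1)).exists_bound_of_continuousOn hc.continuousOn
    have hBc : Continuous (fun F : E => B F F) := B.continuous.clm_apply continuous_id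
    obtain ⟨C2, hC2⟩ := (isCompact_closedBall (0 : E) R).exists_bound_of_continuousOn
      hBc.continuousOn
    refine ⟨C1 + C2, fun n F hF => ?_⟩
    have hcF : ‖col β F‖ ≤ ‖colL β‖ * R := by
      rw [← colL_apply]
      exact ((colL β).le_opNorm F).trans (mul_le_mul_of_nonneg_left hF (norm_nonneg _))
    have b1 : |hm h n (col β F)| ≤ C1 := hm_bound hc (fun x hx => by
      have := hC1 x (by rwa [mem_closedBall_zero_iff])
      rwa [Real.norm_eq_abs] at this) n hcF
    have b2 : |B F F| ≤ C2 := by
      have := hC2 F (by rwa [mem_closedBall_zero_iff])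
      rwa [Real.norm_eq_abs] at this
    exact (abs_add_le _ _).trans (add_le_add b1 b2)

end Pool.Agent.N555.MQ
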