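import Pool.Agent.N555.MQ.Lim

/-!
# Measurable multipliers and the S-lemma for `2 × 2` matrices
-/

set_option autoImplicit false

open MeasureTheory Set Filter Topology

namespace Pool.Agent.N555.MQ

open Pool.Agent.W779.Morrey

/-- The two-point form of the S-lemma. -/
theorem two_point (B : E →L[ℝ] E →L[ℝ] ℝ) (h : ∀ H : E, dt H = 0 → 0 ≤ B H H) (H K : E)
    (hH : 0 < dt H) (hK : dt K < 0) : 0 ≤ dt H * B K K - dt K * B H H := by
  set a := dt K with ha
  set c := dt H with hc
  set m := H 0 0 * K 1 1 + K 0 0 * H 1 1 - H 0 1 * K 1 0 - K 0 1 * H 1 0 with hm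
  have hdt : ∀ s : ℝ, dt (H + s • K) = c + m * s + a * s ^ 2 := by
    intro s
    simp only [dt, Pi.add_apply, Pi.smul_apply, smul_eq_mul, hc, ha, hm]
    ring
  set D := m ^ 2 - 4 * a * c with hD
  have hDpos : 0 ≤ D := by nlinarith [sq_nonneg m, mul_pos (neg_pos.2 hK) hH]
  set r := Real.sqrt D with hr
  have hr2 : r ^ 2 = D := Real.sq_sqrt hDpos
  have hr0 : 0 ≤ r := Real.sqrt_nonneg D
  have hrm : m < r ∧ -m < r := by
    have h1 : m ^ 2 < r ^ 2 := by
      rw [hr2, hD]
      nlinarith [mul_pos (neg_pos.2 hK) hH]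
    have h2 := abs_lt_of_sq_lt_sq h1 hr0
    have h3 := abs_lt.1 (by simpa using h2 : |m| < r)
    exact ⟨h3.2, by linarith [h3.1]⟩
  have ha0 : a ≠ 0 := hK.ne
  set s1 := (-m - r) / (2 * a) with hs1
  set s2 := (-m + r) / (2 * a) with hs2
  have e1 : 2 * a * s1 = -m - r := by rw [hs1]; field_simp
  have e2 : 2 * a * s2 = -m + r := by rw [hs2]; field_simp
  have p1 : 0 < s1 := by
    by_contra hcon
    push Not at hcon
    have : 0 ≤ 2 * a * s1 := by nlinarith
    linarith [hrm.2]
  have p2 : s2 < 0 := by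
    by_contra hcon
    push Not at hcon
    have : 2 * a * s2 ≤ 0 := by nlinarith
    linarith [hrm.1]
  have z1 : dt (H + s1 • K) = 0 := by
    rw [hdt]
    have : 4 * a * (c + m * s1 + a * s1 ^ 2) = (2 * a * s1 + m) ^ 2 - D := by rw [hD]; ring
    rw [e1] at this
    have h0 : 4 * a * (c + m * s1 + a * s1 ^ 2) = 0 := by rw [this, ← hr2]; ring
    rcases mul_eq_zero.1 h0 with h1 | h1
    · exfalso; apply ha0; linarith
    · exact h1
  have z2 : dt (H + s2 • K) = 0 := by
    rw [hdt]
    have : 4 * a * (c + m * s2 + a * s2 ^ 2) = (2 * a * s2 + m) ^ 2 - D := by rw [hD]; ring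
    rw [e2] at this
    have h0 : 4 * a * (c + m * s2 + a * s2 ^ 2) = 0 := by rw [this, ← hr2]; ring
    rcases mul_eq_zero.1 h0 with h1 | h1
    · exfalso; apply ha0; linarith
    · exact h1
  have hprod : a * (s1 * s2) = c := by
    have h4 : 4 * a * (a * (s1 * s2)) = 4 * a * c := by
      have : 4 * a * (a * (s1 * s2)) = (2 * a * s1) * (2 * a * s2) := by ring
      rw [this, e1, e2]
      have : (-m - r) * (-m + r) = m ^ 2 - r ^ 2 := by ring
      rw [this, hr2, hD]; ring
    exact mul_left_cancel₀ (by simpa using ha0 : (4 * a : ℝ) ≠ 0) h4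
  have q1 := h _ z1
  have q2 := h _ z2
  simp only [map_add, map_smul, _root_.add_apply, FunLike.coe_smul, Pi.smul_apply,
    smul_eq_mul] at q1 q2
  have q3 : 0 ≤ (s1 - s2) * (B H H - s1 * s2 * B K K) := by
    have w1 := mul_nonneg (neg_pos.2 p2).le q1
    have w2 := mul_nonneg p1.le q2
    nlinarith
  have q4 : 0 ≤ B H H - s1 * s2 * B K K := by
    by_contra hcon
    push Not at hcon
    have : (s1 - s2) * (B H H - s1 * s2 * B K K) < 0 := mul_neg_of_pos_of_neg (by linarith) hcon
    linarith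
  have q5 := mul_nonneg (neg_pos.2 hK).le q4
  have q6 : -a * (B H H - s1 * s2 * B K K) = c * B K K - a * B H H := by
    rw [← hprod]; ring
  rw [q6] at q5
  exact q5

/-- The S-lemma: a quadratic form nonnegative on the singular matrices has a multiplier. -/
theorem slemma (B : E →L[ℝ] E →L[ℝ] ℝ) (h : ∀ H : E, dt H = 0 → 0 ≤ B H H) :
    ∃ l : ℝ, ∀ H : E, 0 ≤ B H H + l * dt H := by
  set S : Set ℝ := {y | ∃ H : E, 0 < dt H ∧ y = -(B H H) / dt H} with hS
  have hub : ∀ K : E, dt K < 0 → ∀ y ∈ S, y ≤ B K K / (-dt K) := by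
    rintro K hK y ⟨H, hH, rfl⟩
    rw [div_le_div_iff₀ hH (neg_pos.2 hK)]
    have := two_point B h H K hH hK
    nlinarith
  have hne : S.Nonempty := ⟨_, fun r l => if r = l then 1 else 0, by simp [dt], rfl⟩
  have hK0 : dt (fun r l : Fin 2 => if r = l then (if r = 0 then (1:ℝ) else -1) else 0) < 0 := by
    simp [dt]
  have hbdd : BddAbove S := ⟨_, fun y hy => hub _ hK0 y hy⟩
  refine ⟨sSup S, fun H => ?_⟩
  rcases lt_trichotomy (dt H) 0 with hH | hH | hH
  · have h1 := csSup_le hne (hub H hH)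
    rw [le_div_iff₀ (neg_pos.2 hH)] at h1
    linarith
  · rw [hH, mul_zero, add_zero]
    exact h H hH
  · have h1 : -(B H H) / dt H ≤ sSup S := le_csSup hbdd ⟨H, hH, rfl⟩
    rw [div_le_iff₀ hH] at h1
    linarith

/-- the matrix `v ⊗ β / |β|²` -/
noncomputable def Zm (β v : V) : E := tens v (fun l => β l / (β 0 ^ 2 + β 1 ^ 2))

theorem pos_sq {β : V} (hβ : β ≠ 0) : 0 < β 0 ^ 2 + β 1 ^ 2 := by
  rcases eq_or_ne (β 0) 0 with h0 | h0
  · have h1 : β 1 ≠ 0 := by
      intro h1
      apply hβ
      ext j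
      fin_cases j
      · exact h0
      · exact h1
    positivity
  · positivity

theorem col_Zm {β : V} (hβ : β ≠ 0) (v : V) : col β (Zm β v) = v := by
  have hn := (pos_sq hβ).ne'
  ext r
  simp only [col, Zm, tens]
  field_simp

theorem continuous_Zm (β : V) : Continuous (Zm β) := by
  unfold Zm tens
  fun_prop

theorem col_sub (β : V) (F G : E) : col β (F - G) = col β F - col β G := by
  ext r
  simp only [col, Pi.sub_apply]
  ring

theorem col_add (β : V) (F G : E) : col β (F + G) = col β F + col β G := by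
  ext r
  simp only [col, Pi.add_apply]
  ring

/-- **Quasiconvexity from pointwise multipliers depending on one column.** -/
theorem sel_main {W : E → ℝ} (hW : ContDiff ℝ 2 W) (β : V) (hβ : β ≠ 0)
    (hp : ∀ v : V, ∃ l : ℝ, ∀ F : E, col β F = v → ∀ H : E,
      0 ≤ fderiv ℝ (fderiv ℝ W) F H H + l * dt H) : QCtrig W := by
  have hP1 : ContDiff ℝ 1 (fderiv ℝ W) := hW.fderiv_right (by norm_num)
  have hHc : Continuous (fderiv ℝ (fderiv ℝ W)) := hP1.continuous_fderiv (by norm_num)
  choose L hL using hp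
  set I := {MH : E × E // col β MH.1 = 0 ∧ 0 < dt MH.2} with hI
  have hcolM : ∀ (v : V) (M : E), col β M = 0 → col β (Zm β v + M) = v := by
    intro v M hM
    rw [col_add, col_Zm hβ, hM, add_zero]
  set f : I → V → ℝ := fun i v =>
    -(fderiv ℝ (fderiv ℝ W) (Zm β v + i.1.1) i.1.2 i.1.2) / dt i.1.2 with hf
  have hfc : ∀ i, Continuous (f i) := by
    intro i
    simp only [hf]
    refine Continuous.div_const (Continuous.neg ?_) _
    exact ((hHc.comp ((continuous_Zm β).add continuous_const)).clm_apply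
      continuous_const).clm_apply continuous_const
  have hfL : ∀ v i, f i v ≤ L v := by
    intro v i
    simp only [hf]
    rw [div_le_iff₀ i.2.2]
    have := hL v _ (hcolM v i.1.1 i.2.1) i.1.2
    linarith
  have hbdd : ∀ v, BddAbove (range fun i => f i v) := by
    intro v
    refine ⟨L v, ?_⟩
    rintro y ⟨i, rfl⟩
    exact hfL v i
  set H0 : E := fun r l => if r = l then 1 else 0 with hH0
  set K0 : E := fun r l => if r = l then (if r = 0 then (1:ℝ) else -1) else 0 with hK0
  have hdH0 : dt H0 = 1 := by simp [dt, hH0]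
  have hdK0 : dt K0 = -1 := by simp [dt, hK0]
  have hcol0 : col β 0 = 0 := by
    ext r
    simp [col]
  set i0 : I := ⟨(0, H0), hcol0, by simp only [hdH0]; norm_num⟩ with hi0
  have : Nonempty I := ⟨i0⟩
  set ℓ : V → ℝ := fun v => ⨆ i, f i v with hℓ
  have hmeas : Measurable ℓ :=
    (lowerSemicontinuous_ciSup hbdd fun i => (hfc i).lowerSemicontinuous).measurable
  have hℓL : ∀ v, ℓ v ≤ L v := fun v => ciSup_le fun i => hfL v i
  have hℓf : ∀ v i, f i v ≤ ℓ v := fun v i => le_ciSup (hbdd v) i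
  refine trig_main hW β hβ hmeas ?_ ?_
  · intro R
    have c1 : Continuous (fun v => fderiv ℝ (fderiv ℝ W) (Zm β v) K0 K0) :=
      ((hHc.comp (continuous_Zm β)).clm_apply continuous_const).clm_apply continuous_const
    obtain ⟨C1, hC1⟩ := (isCompact_closedBall (0 : V) R).exists_bound_of_continuousOn
      (hfc i0).continuousOn
    obtain ⟨C2, hC2⟩ := (isCompact_closedBall (0 : V) R).exists_bound_of_continuousOn
      c1.continuousOn
    refine ⟨max C1 C2, fun v hv => ?_⟩
    have hv' : v ∈ Metric.closedBall (0 : V) R := by rwa [mem_closedBall_zero_iff]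
    have b1 := hC1 v hv'
    have b2 := hC2 v hv'
    rw [Real.norm_eq_abs] at b1 b2
    rw [abs_le]
    constructor
    · have := (abs_le.1 b1).1
      have h2 := hℓf v i0
      have h3 := le_max_left C1 C2
      linarith
    · have h2 := hL v (Zm β v) (col_Zm hβ v) K0
      rw [hdK0] at h2
      have h3 := hℓL v
      have h4 := (abs_le.1 b2).2
      have h5 := le_max_right C1 C2
      linarith
  · intro F H
    set v := col β F with hv
    set M := F - Zm β v with hM
    have hcM : col β M = 0 := by rw [hM, col_sub, col_Zm hβ, hv, sub_self]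
    have hFM : Zm β v + M = F := by rw [hM]; abel
    rcases lt_or_ge 0 (dt H) with hH | hH
    · have h1 := hℓf v ⟨(M, H), hcM, hH⟩
      simp only [hf, hFM] at h1
      rw [div_le_iff₀ hH] at h1
      linarith
    · have h1 := hL v F hv.symm H
      have h2 : L v * dt H ≤ ℓ v * dt H := mul_le_mul_of_nonpos_right (hℓL v) hH
      linarith

end Pool.Agent.N555.MQ
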